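import Pool.Agent.V7H7.SZ.Uni
import Pool.Agent.V7H7.SZ.Ct5

/-!
# MP_d483fb_an: lattices in classical groups acting on spheres

Let `M` be a closed connected smooth manifold of dimension `m ≥ 1` which is homeomorphic to a
sphere (with any smooth structure) or has the mod 2 cohomology of a sphere.  There is no condition on the Euler characteristic, and `m` may be odd or even.

(1) Let `Γ` be a group which contains (an image of) the power `Q^ι` of a finite 2-group `Q`, `z` a
central element of order at most two of `Q`, of type `δ`: any `z` has type `1`, a square type `2`,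
and the central involution of the quaternion group of order eight type `4`.  Then every smooth action
on `M` of a subgroup of odd index of `Γ` is trivial on a conjugate of a subgroup of index
`≤ 2^((m + 1)/δ)` of the elementary abelian group `⟨z⟩^ι`, given by linear equations.

(2) Unitary groups of diagonal forms `∑ x_i* a_i x_i` over rings `O` with involution.  If `O` is an
order of a totally real number field, or `ℤ[i]` with the complex conjugation, or the Lipschitz or
Hurwitz order (or similar orders over `ℤ[√2]` etc., for cocompact lattices), these are lattices in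
`SO(p, q)`, `SU(p, q)`, `Sp(p, q)`, and the conditions of (i), (ii), (iii) are
`m < n - 2`, `m < 2 n - 3`, `m < 4 n - 5`, `n = p + q`, which is the range `m < min(d(G), v(G))` of the
conjecture.

(3) Orthogonal groups of integral lattices with many orthogonal vectors of norm `± 2`, for example of
the even unimodular lattices `E₈^a ⊕ U^b`, lattices in `O(8 a + b, b)`; again the condition is
`m < 8 a + 2 b - 2 = min(d(G), v(G))`.
-/

set_option autoImplicit false

namespace Pool.Agent.Results.MP_d483fb_an.ClassicalSpheresH7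

open scoped Manifold ContDiff
open Pool.Agent.H185.ZM Module Matrix
open Pool.Agent.V7H7.SZ
open Pool.Agent.V7H7.SZ.Lat (UH um IsForm OL OrthRoots EU0 fE fU formEU0)

variable {E : Type} [NormedAddCommGroup E] [NormedSpace ℝ E] [FiniteDimensional ℝ E]
  {M : Type} [TopologicalSpace M] [ChartedSpace E M] [IsManifold 𝓘(ℝ, E) ∞ M]

/-! ### The statements -/

variable (E M) in
/-- Statement (1): general groups. -/
def StatementG : Prop :=
  ∀ (Γ : Type) [Group Γ] (Q : Type) [Group Q] [Finite Q] (z : Q) (δ : ℕ) (ι : Type) [Fintype ι]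
    (ψ : (ι → Q) →* Γ) (Γ' : Subgroup Γ), IsPGroup 2 Q → QType Q z δ → ¬ 2 ∣ Γ'.index →
    ∀ α : Γ' → (M ≃ₘ^∞⟮𝓘(ℝ, E), 𝓘(ℝ, E)⟯ M), IsHom α →
    ∃ (γ : Γ) (hγ : ∀ p, γ⁻¹ * ψ p * γ ∈ Γ') (T : Finset (ι → ZMod 2)),
      δ * T.card ≤ finrank ℝ E + 1 ∧
      ∀ v : ι → ZMod 2, (∀ c ∈ T, ∑ i, c i * v i = 0) →
        ∀ x, α ⟨γ⁻¹ * ψ (fun i => if v i = 0 then 1 else z) * γ, hγ _⟩ x = x

/-- the unitary group of `∑ x_i* a_i x_i`, as a type -/
def UG {O : Type} [Ring O] [StarRing O] {n : ℕ} (a : Fin n → O) : Type := UH a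

instance {O : Type} [Ring O] [StarRing O] {n : ℕ} (a : Fin n → O) : Group (UG a) :=
  inferInstanceAs (Group (UH a))

/-- the matrix of an element of the unitary group -/
def UG.mat {O : Type} [Ring O] [StarRing O] {n : ℕ} {a : Fin n → O} (g : UG a) :
    Matrix (Fin n) (Fin n) O := um (show UH a from g)

/-- Every normal subgroup of `Γ'` is contained in `{1, -1}` or has finite index. -/
def NSU {O : Type} [Ring O] [StarRing O] {n : ℕ} {a : Fin n → O} (Γ' : Subgroup (UG a)) : Prop :=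
  ∀ N : Subgroup Γ', N.Normal → (∀ g ∈ N, UG.mat (g : UG a) = 1 ∨ UG.mat (g : UG a) = -1) ∨
    Finite (Γ' ⧸ N)

/-- The conclusion: the kernel of `α` contains an element conjugate in the unitary group to a
diagonal matrix with entries `1`, `-1` which is not constant, and the image is finite if every normal
subgroup of `Γ'` is contained in `{1, -1}` or has finite index. -/
def ConclusionU {O : Type} [Ring O] [StarRing O] {n : ℕ} {a : Fin n → O}
    {Γ' : Subgroup (UG a)} (α : Γ' → (M ≃ₘ^∞⟮𝓘(ℝ, E), 𝓘(ℝ, E)⟯ M)) : Prop :=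
  (∃ (g : Γ') (γ : UG a) (v : Fin n → ZMod 2), (∀ x, α g x = x) ∧ (∃ i j, v i ≠ v j) ∧
    UG.mat (γ * (g : UG a) * γ⁻¹) = diagonal (fun i => if v i = 0 then 1 else -1)) ∧
  (NSU Γ' → (Set.range α).Finite)

variable (E M) in
/-- Statement (2): unitary groups over a ring with involution in which `1 ≠ -1`. -/
def StatementU : Prop :=
  ∀ (O : Type) [Ring O] [StarRing O], (1 : O) ≠ -1 →
    ∀ (n : ℕ) (a : Fin n → O) (Γ' : Subgroup (UG a)), ¬ 2 ∣ Γ'.index →
    ∀ α : Γ' → (M ≃ₘ^∞⟮𝓘(ℝ, E), 𝓘(ℝ, E)⟯ M), IsHom α →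
    (finrank ℝ E + 2 < n → ConclusionU α) ∧
    (∀ w : Fin n → O, (∀ i, w i * w i = -1) → (∀ i, star (w i) * a i * w i = a i) →
      finrank ℝ E + 3 < 2 * n → ConclusionU α) ∧
    (∀ w w' : Fin n → O, (∀ i, w i * w i = -1) → (∀ i, w' i * w' i = -1) →
      (∀ i, w i * w' i = -(w' i * w i)) → (∀ i, star (w i) * a i * w i = a i) →
      (∀ i, star (w' i) * a i * w' i = a i) → finrank ℝ E + 5 < 4 * n → ConclusionU α)

/-- the orthogonal group of the lattice `(V, B)`, as a type -/
def OG {V : Type} [AddCommGroup V] (B : V → V → ℤ) : Type := OL B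

instance {V : Type} [AddCommGroup V] (B : V → V → ℤ) : Group (OG B) :=
  inferInstanceAs (Group (OL B))

/-- the value of an isometry at a vector -/
def OG.ev {V : Type} [AddCommGroup V] {B : V → V → ℤ} (g : OG B) (x : V) : V :=
  Lat.ev (show OL B from g) x

/-- `g` is `1` or `-1` -/
def IsPM {V : Type} [AddCommGroup V] {B : V → V → ℤ} (g : OG B) : Prop :=
  (∀ x, OG.ev g x = x) ∨ (∀ x, OG.ev g x = -x)

/-- The conclusion for lattices: the kernel of `α` contains an element of order `2` different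
from `-1`, and the image of `α` is finite if every normal subgroup of `Γ'` is contained in `{1, -1}`
or has finite index. -/
def ConclusionL {V : Type} [AddCommGroup V] {B : V → V → ℤ} {Γ' : Subgroup (OG B)}
    (α : Γ' → (M ≃ₘ^∞⟮𝓘(ℝ, E), 𝓘(ℝ, E)⟯ M)) : Prop :=
  (∃ g : Γ', (∀ y, α g y = y) ∧ ¬ IsPM (g : OG B) ∧ g ^ 2 = 1) ∧
  ((∀ N : Subgroup Γ', N.Normal → (∀ g ∈ N, IsPM (g : OG B)) ∨ Finite (Γ' ⧸ N)) →
    (Set.range α).Finite)

variable (E M) in
/-- Statement (3), lattices with orthogonal vectors `r i` of norm `2 ε i`, `ε i = ± 1`. -/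
def StatementL : Prop :=
  ∀ (V : Type) [AddCommGroup V] (B : V → V → ℤ), IsForm B →
    ∀ (ι : Type) [Fintype ι] (r : ι → V) (ε : ι → ℤ), OrthRoots B r ε →
    ∀ Γ' : Subgroup (OG B), ¬ 2 ∣ Γ'.index →
    ∀ α : Γ' → (M ≃ₘ^∞⟮𝓘(ℝ, E), 𝓘(ℝ, E)⟯ M), IsHom α →
    finrank ℝ E + 2 < Fintype.card ι → ConclusionL α

/-- the lattice `ℤ^(8 a) ⊕ ℤ^(2 b)` -/
def EU (a b : ℕ) : Type := (Fin a → Fin 8 → ℤ) × (Fin b → Fin 2 → ℤ)

instance (a b : ℕ) : AddCommGroup (EU a b) :=
  inferInstanceAs (AddCommGroup ((Fin a → Fin 8 → ℤ) × (Fin b → Fin 2 → ℤ)))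

/-- the form of `E₈^a ⊕ U^b` -/
def formEU (a b : ℕ) (x y : EU a b) : ℤ := ∑ i, fE (x.1 i) (y.1 i) + ∑ i, fU (x.2 i) (y.2 i)

variable (E M) in
/-- Statement (4), the even unimodular lattices `E₈^a ⊕ U^b`. -/
def StatementE : Prop :=
  ∀ (a b : ℕ) (Γ' : Subgroup (OG (formEU a b))), ¬ 2 ∣ Γ'.index →
    ∀ α : Γ' → (M ≃ₘ^∞⟮𝓘(ℝ, E), 𝓘(ℝ, E)⟯ M), IsHom α →
    finrank ℝ E < 8 * a + 2 * b - 2 → ConclusionL α

/-! ### Proofs -/

theorem general [CompactSpace M] [T2Space M] [ConnectedSpace M] (hm : 0 < finrank ℝ E)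
    (hM : Mod2Sphere M (finrank ℝ E)) : StatementG E M := by
  classical
  intro Γ _ Q _ _ z δ ι _ ψ Γ' hQ hz hodd α hα
  obtain ⟨γ, hγ⟩ := exists_coset Γ' hodd (isPGroup_pi (ι := ι) hQ) ψ
  obtain ⟨T, hT1, hT2, -, -⟩ := smooth_weights hM hm (hα.action.comp (cjf Γ' ψ γ hγ))
    (zvHom (ι := ι) z hz.sq) (fun i => lb_zv hz i)
  exact ⟨γ, hγ, T, hT1, fun v hv x => hT2 v hv x⟩

theorem mat_ne_one {O : Type} [Ring O] (h1 : (1 : O) ≠ -1) {n : ℕ} {v : Fin n → ZMod 2}
    (hv : ∃ i j, v i ≠ v j) : diagonal (fun i => if v i = 0 then (1 : O) else -1) ≠ 1 ∧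
      diagonal (fun i => if v i = 0 then (1 : O) else -1) ≠ -1 := by
  obtain ⟨i, j, hij⟩ := hv
  have key : ∀ t : O, ¬ (∀ k : Fin n, (if v k = 0 then (1 : O) else -1) = t) := by
    intro t ht
    have e1 := ht i
    have e2 := ht j
    rcases v2_cases (v i) with h2 | h2 <;> rcases v2_cases (v j) with h3 | h3
    · exact hij (by rw [h2, h3])
    · rw [if_pos h2] at e1
      rw [h3, if_neg (by decide)] at e2
      exact h1 (e1.trans e2.symm)
    · rw [h2, if_neg (by decide)] at e1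
      rw [if_pos h3] at e2
      exact h1 (e2.trans e1.symm)
    · exact hij (by rw [h2, h3])
  constructor
  · intro h
    apply key 1
    intro k
    have := congrFun (congrFun h k) k
    rwa [diagonal_apply_eq, one_apply_eq] at this
  · intro h
    apply key (-1)
    intro k
    have := congrFun (congrFun h k) k
    rwa [diagonal_apply_eq, neg_apply, one_apply_eq] at this

theorem unitary_core [CompactSpace M] [T2Space M] [ConnectedSpace M] (hm : 0 < finrank ℝ E)
    (hM : Mod2Sphere M (finrank ℝ E)) {O : Type} [Ring O] [StarRing O] (h1 : (1 : O) ≠ -1)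
    {n : ℕ} {a : Fin n → O} (Γ' : Subgroup (UH a)) (hodd : ¬ 2 ∣ Γ'.index)
    {α : Γ' → (M ≃ₘ^∞⟮𝓘(ℝ, E), 𝓘(ℝ, E)⟯ M)} (hα : IsHom α) {Q : Type} [Group Q] [Finite Q]
    (hQ : IsPGroup 2 Q) {z : Q} {δ : ℕ} (hz : QType Q z δ) (u : Fin n → Q →* O)
    (hu : ∀ i q, star (u i q) * a i * u i q = a i) (huz : ∀ i, u i z = -1)
    (hlt : finrank ℝ E + 1 < δ * (n - 1)) :
    (∃ (g : Γ') (γ : UH a) (v : Fin n → ZMod 2), (∀ x, α g x = x) ∧ (∃ i j, v i ≠ v j) ∧
      um (γ * (g : UH a) * γ⁻¹) = diagonal (fun i => if v i = 0 then 1 else -1)) ∧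
    ((∀ N : Subgroup Γ', N.Normal → (∀ g ∈ N, um (g : UH a) = 1 ∨ um (g : UH a) = -1) ∨
      Finite (Γ' ⧸ N)) → (Set.range α).Finite) := by
  obtain ⟨γ, v, hγ, hv, htriv⟩ := diag_core hM hm hQ hz (dU u hu) Γ' hodd hα.action
    (by rwa [Fintype.card_fin])
  have hsg : um (dU u hu (zv z v)) = diagonal (fun i => if v i = 0 then 1 else -1) := by
    rw [dU_coe]
    congr 1
    funext i
    unfold zv
    split_ifs with h
    · exact map_one _
    · exact huz i
  have hconj : γ * (γ⁻¹ * dU u hu (zv z v) * γ) * γ⁻¹ = dU u hu (zv z v) := by group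
  refine ⟨⟨⟨_, hγ⟩, γ, v, htriv, hv, ?_⟩, fun hNS => hα.finite_range ?_⟩
  · show um (γ * (γ⁻¹ * dU u hu (zv z v) * γ) * γ⁻¹) = _
    rw [hconj, hsg]
  · rcases hNS (actKer hα.action) inferInstance with h2 | h2
    · exfalso
      have h3 := h2 _ htriv
      have hm1 : ∀ g h : UH a, um (g * h) = um g * um h := fun g h => rfl
      have hm2 : um (γ * γ⁻¹) = 1 := by
        rw [mul_inv_cancel]
        rfl
      obtain ⟨h4, h5⟩ := mat_ne_one h1 hv
      have h6 : um (γ * (γ⁻¹ * dU u hu (zv z v) * γ) * γ⁻¹) =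
          um γ * um (γ⁻¹ * dU u hu (zv z v) * γ) * um γ⁻¹ := rfl
      rw [hconj, hsg] at h6
      rcases h3 with h3 | h3
      · have h3' : um (γ⁻¹ * dU u hu (zv z v) * γ) = 1 := h3
        apply h4
        rw [h6, h3', mul_one, ← hm1, hm2]
      · have h3' : um (γ⁻¹ * dU u hu (zv z v) * γ) = -1 := h3
        apply h5
        rw [h6, h3', mul_neg, mul_one, neg_mul, ← hm1, hm2]
    · exact h2

theorem unitary [CompactSpace M] [T2Space M] [ConnectedSpace M] (hm : 0 < finrank ℝ E)
    (hM : Mod2Sphere M (finrank ℝ E)) : StatementU E M := by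
  intro O _ _ h1 n a Γ' hodd α hα
  refine ⟨fun hlt => ?_, fun w hw hs hlt => ?_, fun w w' hw hw' hww hs hs' hlt => ?_⟩
  · have hn2 : (-1 : O) ^ 2 = 1 := by simp
    refine unitary_core hm hM h1 Γ' hodd hα pg_two qtype_two (fun _ => Lat.zh (-1 : O) hn2)
      (fun i q => ?_) (fun i => ?_) (by omega)
    · rw [Lat.zh_apply]
      exact star_pow_inv (by simp) _
    · rw [Lat.zh_apply]
      show (-1 : O) ^ ((1 : ZMod 2)).val = -1
      rw [show ((1 : ZMod 2)).val = 1 from rfl, pow_one]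
  · have hw4 : ∀ i, w i ^ 4 = 1 := fun i => by
      rw [show (4 : ℕ) = 2 + 2 from rfl, pow_add, pow_two, hw i]
      simp
    refine unitary_core hm hM h1 Γ' hodd hα pg_four qtype_four (fun i => Lat.zh (w i) (hw4 i))
      (fun i q => ?_) (fun i => ?_) (by omega)
    · rw [Lat.zh_apply]
      exact star_pow_inv (hs i) _
    · rw [Lat.zh_apply]
      show (w i) ^ ((2 : ZMod 4)).val = -1
      rw [show ((2 : ZMod 4)).val = 2 from rfl, pow_two, hw i]
  · exact unitary_core hm hM h1 Γ' hodd hα pg_quat qtype_quat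
      (fun i => qh (w i) (w' i) (hw i) (hw' i) (hww i))
      (fun i q => qh_star (hw i) (hw' i) (hww i) (hs i) (hs' i) q)
      (fun i => qh_a2 _ _ _ _ _) (by omega)

theorem lattice_core [CompactSpace M] [T2Space M] [ConnectedSpace M] (hm : 0 < finrank ℝ E)
    (hM : Mod2Sphere M (finrank ℝ E)) {V : Type} [AddCommGroup V] {B : V → V → ℤ}
    (hB : IsForm B) {ι : Type} [Fintype ι] {r : ι → V} {ε : ι → ℤ} (hr : OrthRoots B r ε)
    (Γ' : Subgroup (OL B)) (hodd : ¬ 2 ∣ Γ'.index)
    {α : Γ' → (M ≃ₘ^∞⟮𝓘(ℝ, E), 𝓘(ℝ, E)⟯ M)} (hα : IsHom α)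
    (hlt : finrank ℝ E + 2 < Fintype.card ι) :
    (∃ g : Γ', (∀ y, α g y = y) ∧ ¬ Lat.IsPM0 (g : OL B) ∧ g ^ 2 = 1) ∧
    ((∀ N : Subgroup Γ', N.Normal → (∀ g ∈ N, Lat.IsPM0 (g : OL B)) ∨ Finite (Γ' ⧸ N)) →
      (Set.range α).Finite) := by
  classical
  obtain ⟨φ, hφ⟩ := Lat.two_group hB hr
  obtain ⟨γ, hγ, T, hT1, hT2⟩ := general hm hM (OL B) (Multiplicative (ZMod 2))
    (Multiplicative.ofAdd 1) 1 ι φ Γ' pg_two qtype_two hodd α hα
  rw [one_mul] at hT1
  -- two different elements of the kernel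
  obtain ⟨v, hv0, hv⟩ := exists_ne_zero T (by omega)
  have hvi : ∃ i, v i ≠ 0 := by
    by_contra hcon
    push Not at hcon
    exact hv0 (funext hcon)
  obtain ⟨i, hi⟩ := hvi
  obtain ⟨v', hv0', hv'⟩ := exists_ne_zero (insert (Pi.single i 1) T)
    (lt_of_le_of_lt (Finset.card_insert_le _ _) (by omega))
  have hvi' : v' i = 0 := by
    have := hv' (Pi.single i 1) (Finset.mem_insert_self _ _)
    rwa [single_dotProduct, one_mul] at this
  have hzz : ∀ v : ι → ZMod 2, zv (Multiplicative.ofAdd (1 : ZMod 2)) v = fun i =>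
      Multiplicative.ofAdd (v i) := by
    intro v
    funext i
    unfold zv
    rcases v2_cases (v i) with h | h
    · rw [if_pos h, h]; rfl
    · rw [h, if_neg (by decide)]
  have hinj : ∀ v v' : ι → ZMod 2, φ (zv (Multiplicative.ofAdd (1 : ZMod 2)) v) =
      φ (zv (Multiplicative.ofAdd (1 : ZMod 2)) v') → v = v' := by
    intro v v' h
    have h1 := hφ h
    rw [hzz, hzz] at h1
    funext i
    exact congrFun h1 i
  have hone : φ (zv (Multiplicative.ofAdd (1 : ZMod 2)) 0) = 1 := by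
    rw [hzz]
    exact map_one φ
  have htriv : ∀ v : ι → ZMod 2, (∀ c ∈ T, c ⬝ᵥ v = 0) → ∀ x,
      α ⟨γ⁻¹ * φ (zv (Multiplicative.ofAdd (1 : ZMod 2)) v) * γ, hγ _⟩ x = x := fun v hv x =>
    hT2 v hv x
  -- one of them is not `± 1`
  have hex : ∃ v : ι → ZMod 2, (∀ c ∈ T, c ⬝ᵥ v = 0) ∧
      ¬ Lat.IsPM0 (φ (zv (Multiplicative.ofAdd (1 : ZMod 2)) v)) := by
    by_contra hcon
    push Not at hcon
    have h1 := hcon v hv
    have h2 := hcon v' (fun c hc => hv' c (Finset.mem_insert_of_mem hc))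
    have n1 : ∀ v : ι → ZMod 2, (∀ x, Lat.ev (φ (zv (Multiplicative.ofAdd (1 : ZMod 2)) v)) x = x) →
        v = 0 := by
      intro v h
      apply hinj
      rw [hone]
      exact Lat.ol_ext h
    have h1' := h1.resolve_left (fun h => hv0 (n1 v h))
    have h2' := h2.resolve_left (fun h => hv0' (n1 v' h))
    have h3 : v = v' := by
      apply hinj
      apply Lat.ol_ext
      intro x
      rw [h1', h2']
    apply hi
    rw [h3, hvi']
  obtain ⟨w, hw1, hw2⟩ := hex
  have hnpm : ¬ Lat.IsPM0 (γ⁻¹ * φ (zv (Multiplicative.ofAdd (1 : ZMod 2)) w) * γ) :=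
    fun h => hw2 (Lat.isPM_conj h)
  refine ⟨⟨⟨_, hγ _⟩, htriv w hw1, hnpm, ?_⟩, fun hNS => hα.finite_range ?_⟩
  · apply Subtype.ext
    show (γ⁻¹ * φ (zv (Multiplicative.ofAdd (1 : ZMod 2)) w) * γ) ^ 2 = 1
    have h2 : (γ⁻¹ * φ (zv (Multiplicative.ofAdd (1 : ZMod 2)) w) * γ) ^ 2 =
        γ⁻¹ * (φ (zv (Multiplicative.ofAdd (1 : ZMod 2)) w)) ^ 2 * γ := by
      have := conj_pow (i := 2) (a := γ⁻¹) (b := φ (zv (Multiplicative.ofAdd (1 : ZMod 2)) w))
      rw [inv_inv] at this
      exact this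
    have h3 : (zv (Multiplicative.ofAdd (1 : ZMod 2)) w) ^ 2 = 1 := by
      funext i
      show (zv (Multiplicative.ofAdd (1 : ZMod 2)) w i) ^ 2 = 1
      generalize zv (Multiplicative.ofAdd (1 : ZMod 2)) w i = t
      revert t
      decide
    rw [h2, ← map_pow, h3, map_one]
    group
  · rcases hNS (actKer hα.action) inferInstance with h3 | h3
    · exact absurd (h3 _ (htriv w hw1)) hnpm
    · exact h3

/-- **Lattices in classical groups acting on spheres.**  Let `M` be a closed connected smooth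
manifold of dimension `m ≥ 1` which is homeomorphic to the sphere of dimension `m` or has its mod 2
cohomology.
(1) Let `ψ : Q^ι → Γ` be a homomorphism, `Q` a finite 2-group, `z` a central element of `Q` of type
`δ`, `Γ'` a subgroup of `Γ` of odd index.  Then for every homomorphism `α : Γ' → Diff(M)` there are
`γ` in `Γ` with `γ⁻¹ ψ(Q^ι) γ` contained in `Γ'` and a set of at most `(m + 1) / δ` linear equations
over `𝔽₂`, such that the elements `γ⁻¹ ψ(z^v) γ` act trivially for all solutions `v` of these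
equations.
(2) Let `Γ'` be a subgroup of odd index of the unitary group of `∑ x_i* a_i x_i`, `i < n`, over a ring
`O` with involution, `1 ≠ -1` in `O`.  Then the kernel of `α` contains an element which is conjugate to
a diagonal matrix with entries `1`, `-1`, not constant, and `α` has finite image if every
normal subgroup of `Γ'` is contained in `{1, -1}` or has finite index, if `m < n - 2`; or if
`m < 2 n - 3` and there are `w_i ∈ O` with `w_i² = -1`, `w_i* a_i w_i = a_i`; or if `m < 4 n - 5` and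
there are moreover `w_i' ∈ O` with the same properties and `w_i w_i' = - w_i' w_i`.
(3) Similarly for orthogonal groups of integral lattices with `l` orthogonal vectors of norm `± 2`,
if `m < l - 2`; (4) in particular for the even unimodular lattices `E₈^a ⊕ U^b`, if
`m < 8 a + 2 b - 2`. -/
theorem result [CompactSpace M] [T2Space M] [ConnectedSpace M] (hm : 0 < finrank ℝ E)
    (hS : SphereLike M (finrank ℝ E)) :
    StatementG E M ∧ StatementU E M ∧ StatementL E M ∧ StatementE E M := by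
  have hM : Mod2Sphere M (finrank ℝ E) := SphereLike.mod2 E hm hS
  refine ⟨general hm hM, unitary hm hM, ?_, ?_⟩
  · intro V _ B hB ι _ r ε hr Γ' hodd α hα hlt
    exact lattice_core hm hM hB hr Γ' hodd hα hlt
  · intro a b Γ' hodd α hα hlt
    refine lattice_core hm hM (V := EU0 a b) (Lat.isForm_EU0 a b) (Lat.roots_EU a b) Γ' hodd hα ?_
    have c1 : Fintype.card ((Fin a × Fin 8) ⊕ (Fin b × Fin 2)) = a * 8 + b * 2 := by simp
    rw [c1]
    omega

end Pool.Agent.Results.MP_d483fb_an.ClassicalSpheresH7
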