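import Pool.Agent.V7H7.SZ.Pau
import Pool.Agent.V7H7.SZ.Ct5

/-!
# MP_d483fb_an: lattices in exceptional groups acting on spheres

Let `M` be a closed connected smooth manifold of dimension `m ≥ 1` which is homeomorphic to a
sphere (with any smooth structure) or has the mod 2 cohomology of a sphere.  We prove
that every smooth action on `M` of a group which contains the Pauli group of
order `2 ^ (2 l + 1)`, or of a subgroup of odd index of it, is trivial on a conjugate of the central
involution of the Pauli group, if `m + 1 < 2 ^ l`; there is no condition on the Euler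
characteristic, and the dimension `m` may be odd.

This applies to the following lattices in exceptional groups.  Let
`T_p = X^a Z^b`, for `p = (a, b)` in `𝔽₂^k × 𝔽₂^k`, be the Pauli operators on
`ℝ^(2 ^ k) = 𝔽₂^k → ℝ`, and `v₁, …, v_s` elements whose operators anticommute pairwise.  Let first
`r = 0`, `h = 1`, and `a ⬝ b = 1` for all `v i`.

* `k = 7`, `s = 15`: let `N` consist of the 120 elements `v i` and `v i + v j`, `i < j`, and let
  `w = 1`.  Then `mulA h w` is the Lie algebra `so(16) + ℝ^128` of type `E₈(8)`.
* `k = 6`, `s = 11` with `∑ v i = 0`: let `N` consist of the 66 elements `v i` and `v i + v j` and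
  of the three non zero elements whose operators commute with them; let `w = 1` on the 66 elements
  and `w = 2` on the three others.  Then `mulA h w` is the Lie algebra `so(12) + su(2) + ℝ^64` of
  type `E₇(-5)`.
* `k = 5`, `s = 9`: let `N` consist of the 45 elements `v i` and `v i + v j`, with `w = 1`, and of
  their sum, with `w = 3`.  Then `mulA h w` is the Lie algebra `so(10) + u(1) + ℝ^32` of type
  `E₆(-14)`.

Over `ℤ` the groups `AutA h w` are lattices in `E₈(8)`, `E₇(-5)`, `E₆(-14)` (up to finite groups),
over `ℤ[i]` or another order of an imaginary quadratic field they are lattices in the complex groups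
`E₈`, `E₇`, `E₆`, and with `w` multiplied by `√2` over `ℤ[√2]` cocompact lattices.

Let now `r = 1`, `h = (1, -1)`, and `a ⬝ b + a₁ = 1` for all `v i`; multiply `w p` by `-1` if
`a ⬝ b = 0`.  According to the number of the `v i` with `a ⬝ b = 0` these are the Lie algebras
`E₈(-24)` and `E₈(8)` (`k = 7`), `E₇(-25)`, `E₇(-5)`, `E₇(7)` (`k = 6`), and `E₆(-26)`, `E₆(6)`,
`E₆(2)`, `E₆(-14)` (`k = 5`).  (These facts are not used and not proved here.)  The involution
`(1, -1)` of the algebra is the image of the central element of the Pauli group of order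
`2 ^ (2 l + 1)`, `l = k - r`.

The numbers `min (d(G), v(G))` are `21, 33, 27, 57` for `E₆(-14)`, `E₇(-5)`, `E₇(-25)`, `E₈(-24)`,
and at most `26`, `54`, `114` for the complex groups `E₆`, `E₇`, `E₈`, always smaller than
`2 ^ l - 1`.
-/

set_option autoImplicit false

namespace Pool.Agent.Results.MP_d483fb_an.ExceptionalSpheresH7

open scoped Manifold ContDiff
open Pool.Agent.H185.ZM Pool.Agent.N987.ZX Module
open Pool.Agent.V7H7.SZ (Mod2Sphere SphereLike pauli_trivial exists_coset cjf)

/-- Every normal subgroup is central or has finite index. -/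
def NormalSubgroupProperty (Γ : Type) [Group Γ] : Prop :=
  ∀ N : Subgroup Γ, N.Normal → N ≤ Subgroup.center Γ ∨ Finite (Γ ⧸ N)

section defs

variable (E : Type) [NormedAddCommGroup E] [NormedSpace ℝ E] [FiniteDimensional ℝ E]
  (M : Type) [TopologicalSpace M] [ChartedSpace E M]

/-- The subgroup `Γ'` of `Γ`, the element `ζ` of `Γ` and the manifold `M` have the property:
for every homomorphism `α : Γ' → Diff(M)` some conjugate of `ζ` in `Γ` belongs to `Γ'` and acts
trivially on `M`; and if moreover no conjugate of `ζ` is a central element of `Γ'` and every normal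
subgroup of `Γ'` is central or of finite index, then `α` has finite image. -/
def Rigid {Γ : Type} [Group Γ] (ζ : Γ) (Γ' : Subgroup Γ) : Prop :=
  ∀ α : Γ' → (M ≃ₘ^∞⟮𝓘(ℝ, E), 𝓘(ℝ, E)⟯ M), IsHom α →
    (∃ (γ : Γ) (h : γ⁻¹ * ζ * γ ∈ Γ'), ∀ x, α ⟨γ⁻¹ * ζ * γ, h⟩ x = x) ∧
    ((∀ (γ : Γ) (h : γ⁻¹ * ζ * γ ∈ Γ'), (⟨γ⁻¹ * ζ * γ, h⟩ : Γ') ∉ Subgroup.center Γ') →
      NormalSubgroupProperty Γ' → (Set.range α).Finite)

/-- The subgroups of odd index of the groups which contain an image of a Pauli group. -/
def AllPauli : Prop :=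
  ∀ (l : ℕ) (Γ : Type) [Group Γ] (φ : PG l →* Γ) (Γ' : Subgroup Γ), ¬ 2 ∣ Γ'.index →
    finrank ℝ E + 1 < 2 ^ l → Rigid E M (φ (PG.z l)) Γ'

/-- The automorphism groups of the algebras `mulA h w`. -/
def AllAutA : Prop :=
  ∀ (R : Type) [CommRing R] (r l : ℕ) (N : Finset (V2 (r + l) × V2 (r + l)))
    (h : V2 (r + l) → R) (w : N → R), FirstOnly h → ∃ ζ : AutGrp h w, IsZeta h w ζ ∧
      ∀ Γ' : Subgroup (AutGrp h w), ¬ 2 ∣ Γ'.index → finrank ℝ E + 1 < 2 ^ l → Rigid E M ζ Γ'

end defs

variable {E : Type} [NormedAddCommGroup E] [NormedSpace ℝ E] [FiniteDimensional ℝ E]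
  {M : Type} [TopologicalSpace M] [ChartedSpace E M] [IsManifold 𝓘(ℝ, E) ∞ M]

theorem isPGroup_PG (l : ℕ) : IsPGroup 2 (PG l) := by
  apply IsPGroup.of_card (n := 2 * l + 1)
  rw [Nat.card_congr (PG.equiv l), Nat.card_prod, Nat.card_prod, Nat.card_fun, Nat.card_zmod,
    Nat.card_eq_fintype_card, Fintype.card_fin]
  ring

/-- **Groups which contain Pauli groups acting on spheres.**  Let `M` be a closed connected smooth
manifold of dimension `m ≥ 1` which is homeomorphic to the sphere of dimension `m` or has its mod 2
cohomology.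
(1) Let `φ : PG l → Γ` be a homomorphism of the Pauli group of order `2 ^ (2 l + 1)` to any group
`Γ`, and `Γ'` a subgroup of `Γ` of (finite) odd index.  If `m + 1 < 2 ^ l`, then for every
homomorphism `α : Γ' → Diff(M)` a conjugate of the image of the central involution belongs to `Γ'`
and to the kernel of `α`; and `α` has finite image if moreover every normal subgroup of `Γ'` is
central or of finite index and no conjugate of this involution is central in `Γ'`.
(2) This applies to all subgroups of odd index of the automorphism group of the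
algebra `mulA h w` on the space `R^N + (𝔽₂^(r + l) → R)` over any commutative ring `R`, for all
`N`, `w : N → R` and all functions `h` of the first `r` coordinates, with the automorphism
`ζ = (1, -1)`. -/
theorem result [CompactSpace M] [T2Space M] [ConnectedSpace M] (hm : 0 < finrank ℝ E)
    (hS : SphereLike M (finrank ℝ E)) : AllPauli E M ∧ AllAutA E M := by
  have hM : Mod2Sphere M (finrank ℝ E) := SphereLike.mod2 E hm hS
  have key : AllPauli E M := by
    intro l Γ _ φ Γ' hodd hl α hα
    obtain ⟨γ, hγ⟩ := exists_coset Γ' hodd (isPGroup_PG l) φ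
    have htriv : ∀ x, α ⟨γ⁻¹ * φ (PG.z l) * γ, hγ _⟩ x = x := fun x =>
      pauli_trivial hM hm hl (hα.action.comp (cjf Γ' φ γ hγ)) x
    refine ⟨⟨γ, hγ _, htriv⟩, fun hz hNS => hα.finite_range ?_⟩
    rcases hNS (actKer hα.action) inferInstance with h1 | h1
    · exact absurd (h1 htriv) (hz γ (hγ _))
    · exact h1
  exact ⟨key, fun R _ r l N h w hh => ⟨phiA h w hh (PG.z l), phiA_z h w hh,
    fun Γ' hodd hl => key l _ (phiA h w hh) Γ' hodd hl⟩⟩

end Pool.Agent.Results.MP_d483fb_an.ExceptionalSpheresH7
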