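import Pool.Agent.V7H7.SZ.Ele
import Pool.Agent.V7H7.SZ.Ct5
import Pool.Agent.V7H7.SZ.Alb
import Pool.Agent.V7H7.SZ.Six

/-!
# MP_d483fb_an: groups with many monomial matrices acting on spheres

Let `M` be a closed connected smooth manifold of dimension `m ≥ 1` which is homeomorphic to a
sphere (with any smooth structure) or has the mod 2 cohomology of a sphere; `m` may be odd, and there
is no condition on the Euler characteristic.

In (1) and (2) let `O` be a ring and `n ≥ 3`.  Let `δ = 1`; or `δ = 2`, if `O` contains an element of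
square `-1`; or `δ = 4`, if `O` contains two anticommuting elements of square `-1`.  We consider
actions with `m + 1 < δ n`.

(1) The unitary groups of the forms `∑ x_i* a x_i` over rings with involution.  Examples, for which
the condition `m + 1 < δ n` contains the range `m < min(d(G), v(G))` of the conjecture:
* `O = ℤ[i]` with the trivial involution, `a = 1`, `δ = 1`: lattices in `SO(n, ℂ)`,
  `min(d(G), v(G)) = n - 1` for `n ≥ 5`;
* `O` the Lipschitz order, `a = i`, `δ = 2`: lattices in `SO*(2 n)`, `min(d(G), v(G)) = 2 n - 1`;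
* `O = M₂(ℤ[i])` with the symplectic involution, `a = 1`, `δ = 4`: `Sp_{2 n}(ℤ[i])`,
  `min(d(G), v(G)) = 4 n - 4`.

(2) Groups which contain the elementary group `E_n(O)`.  Examples: `SL_n(ℤ[i])`, `δ = 2`, a lattice in
`SL_n(ℂ)`, `min(d(G), v(G)) = 2 n - 2` for `n ≠ 4` and `5` for `n = 4`; `GL_n(O)` with `O` the
Lipschitz or Hurwitz order, `δ = 4`, modulo a finite group a lattice in `SL_n(ℍ)`,
`min(d(G), v(G)) = 4 n - 4`; `SL_{2 n}(A) = SL_n(M₂(A))` with `A` a ring of integers in which `-1` is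
a sum of two squares, `δ = 4` (for `-1 = a² + b²` the matrices `(0, -1; 1, 0)` and `(a, b; b, -a)`
anticommute and have the square `-1`), for instance `A = ℤ[√-2]` and the Eisenstein integers
(`ω² + (ω²)² = -1`), lattices in `SL_{2 n}(ℂ)`, `min(d(G), v(G)) = 4 n - 2`; and similar orders in
larger algebras for cocompact and irreducible lattices in products of such groups.

(3) Groups of `R`-linear maps of `R^8` which contain the automorphisms of the octonions over the
commutative ring `R` which permute the basis `e_z`, `z ∈ (ℤ/2)³`, up to signs, for `m < 6`.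
Example: the automorphism group of the octonions over `ℤ[i]`, a lattice in `G₂(ℂ)`,
`min(d(G), v(G)) = 6`.

(4) Groups of `R`-linear maps of `R^27` which contain the automorphisms of the Albert algebra, the
hermitian `3 × 3` matrices over the octonions with the product `a b + b a`, which permute its basis
up to signs and preserve the determinant, for `m < 23`.  Examples: the automorphism group of the Albert algebra over `ℤ[i]`, a
lattice in `F₄(ℂ)`, `min(d(G), v(G)) = 16`; the group of the `ℤ`-linear maps which preserve the cubic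
form (the determinant) of the Albert algebra over `ℤ`, a lattice in `E₆(-26)`,
`min(d(G), v(G)) = 16`.

(5) Groups with a homomorphism from `P × Q₈`, `P` the group of the monomial matrices in
`E_6(ℤ[i]) = SL_6(ℤ[i])`, which is trivial on `(-1, -1)`, for `m < 23`.  Example: the maximal compact
subgroup of the group `G` of type `E₆(2)` is the image of `SU(6) × SU(2)`, with `(-1, -1)` in the
kernel; the Lie algebra `su(6) + su(2) + (Λ³ ℂ⁶ ⊗ ℂ²)_ℝ` of `G` has a form over `ℚ` stable under
`P × Q₈`, and `P × Q₈` acts by automorphisms of a suitable lattice in this form, so that the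
arithmetic group of the automorphisms of this lattice is an example; `min(d(G), v(G)) = 21`.

Together with the hand-ins `ExceptionalSpheresH7` and `ClassicalSpheresH7` these examples cover all
simple groups of real rank at least two which are not split (for the split groups the conjecture is
known): in each of them there are lattices for which the conjecture holds for all `M` as above.
These facts about examples are not proved here.
-/

set_option autoImplicit false

namespace Pool.Agent.Results.MP_d483fb_an.MonomialSpheresH7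

open scoped Manifold ContDiff
open Pool.Agent.H185.ZM Pool.Agent.N287.NC Module Matrix
open Pool.Agent.V7H7.SZ
open Pool.Agent.V7H7.SZ.Lat (UH um)

variable {E : Type} [NormedAddCommGroup E] [NormedSpace ℝ E] [FiniteDimensional ℝ E]
  {M : Type} [TopologicalSpace M] [ChartedSpace E M] [IsManifold 𝓘(ℝ, E) ∞ M]

/-! ### The statements -/

/-- the diagonal matrix with entries `1`, `-1` -/
def sgm {O : Type} [Ring O] {n : ℕ} (v : Fin n → ZMod 2) : Matrix (Fin n) (Fin n) O :=
  diagonal (fun i => if v i = 0 then 1 else -1)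

/-- the group of invertible `n × n` matrices over `O`, as a type -/
def GLn (n : ℕ) (O : Type) [Ring O] : Type := (Matrix (Fin n) (Fin n) O)ˣ

instance (n : ℕ) (O : Type) [Ring O] : Group (GLn n O) := Units.instGroup

/-- the matrix of an element of `GLn n O` -/
def GLn.mat {O : Type} [Ring O] {n : ℕ} (g : GLn n O) : Matrix (Fin n) (Fin n) O :=
  Units.val (show (Matrix (Fin n) (Fin n) O)ˣ from g)

/-- the group of all monomial matrices with entries in the image of `u` -/
def Mono {O : Type} [Ring O] (n : ℕ) {Q : Type} [Group Q] (u : Q →* O) : Subgroup (GLn n O) :=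
  mono u

/-- the unitary group of `∑ x_i* a x_i`, as a type -/
def UG {O : Type} [Ring O] [StarRing O] (n : ℕ) (a : O) : Type := UH (fun _ : Fin n => a)

instance {O : Type} [Ring O] [StarRing O] (n : ℕ) (a : O) : Group (UG n a) :=
  Subgroup.toGroup _

/-- the matrix of an element of the unitary group -/
def UG.mat {O : Type} [Ring O] [StarRing O] {n : ℕ} {a : O} (g : UG n a) :
    Matrix (Fin n) (Fin n) O := um (show UH (fun _ : Fin n => a) from g)

/-- The conclusion for unitary groups: the diagonal matrices with an even number of entries `-1`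
and the others `1` act trivially, and the image is finite if every normal subgroup is contained in
`{1, -1}` or has finite index. -/
def ConclusionU {O : Type} [Ring O] [StarRing O] {n : ℕ} {a : O}
    (α : UG n a → (M ≃ₘ^∞⟮𝓘(ℝ, E), 𝓘(ℝ, E)⟯ M)) : Prop :=
  (∀ (g : UG n a) (v : Fin n → ZMod 2), ∑ i, v i = 0 → g.mat = sgm v → ∀ x, α g x = x) ∧
  ((∀ N : Subgroup (UG n a), N.Normal → (∀ g ∈ N, UG.mat g = 1 ∨ UG.mat g = -1) ∨
    Finite (UG n a ⧸ N)) → (Set.range α).Finite)

variable (E M) in
/-- Statement (1): unitary groups. -/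
def StatementU : Prop :=
  ∀ (O : Type) [Ring O] [StarRing O], (1 : O) ≠ -1 → ∀ (n : ℕ) (a : O), 3 ≤ n →
    ∀ α : UG n a → (M ≃ₘ^∞⟮𝓘(ℝ, E), 𝓘(ℝ, E)⟯ M), IsHom α →
    (finrank ℝ E + 1 < n → ConclusionU α) ∧
    (∀ w : O, w * w = -1 → star w * a * w = a → finrank ℝ E + 1 < 2 * n → ConclusionU α) ∧
    (∀ w w' : O, w * w = -1 → w' * w' = -1 → w * w' = -(w' * w) → star w * a * w = a →
      star w' * a * w' = a → finrank ℝ E + 1 < 4 * n → ConclusionU α)

/-- the type `δ` of the ring -/
def RingType (O : Type) [Ring O] (δ : ℕ) : Prop :=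
  δ = 1 ∨ (δ = 2 ∧ ∃ w : O, w * w = -1) ∨
    (δ = 4 ∧ ∃ w w' : O, w * w = -1 ∧ w' * w' = -1 ∧ w * w' = -(w' * w))

/-- the elementary matrix `e_ij(c)` -/
def elem {O : Type} [Ring O] {n : ℕ} {i j : Fin n} (h : i ≠ j) (c : O) : GLn n O := nel h c

/-- the elementary group `E_n(O)` -/
def Elem (n : ℕ) (O : Type) [Ring O] : Subgroup (GLn n O) := EN n O

/-- `g` belongs to `Γ` and acts trivially -/
def Triv {O : Type} [Ring O] {n : ℕ} {Γ : Subgroup (GLn n O)}
    (α : Γ → (M ≃ₘ^∞⟮𝓘(ℝ, E), 𝓘(ℝ, E)⟯ M)) (g : GLn n O) : Prop :=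
  ∃ h : g ∈ Γ, ∀ x, α ⟨g, h⟩ x = x

/-- The conclusion for groups which contain the elementary group. -/
def ConclusionE {O : Type} [Ring O] {n : ℕ} {Γ : Subgroup (GLn n O)}
    (α : Γ → (M ≃ₘ^∞⟮𝓘(ℝ, E), 𝓘(ℝ, E)⟯ M)) : Prop :=
  (∀ (c : O) (i j : Fin n) (h : i ≠ j), Triv α (elem h (2 * c))) ∧
  (finrank ℝ E + 2 < 2 ^ (n - 1) → (∀ g ∈ Elem n O, Triv α g) ∧
    (((Elem n O).subgroupOf Γ).index ≠ 0 → (Set.range α).Finite)) ∧
  ((2 : O) ≠ 0 → (∀ N : Subgroup Γ, N.Normal → N ≤ Subgroup.center Γ ∨ Finite (Γ ⧸ N)) →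
    (Set.range α).Finite)

variable (E M) in
/-- Statement (2): groups which contain the elementary group. -/
def StatementE : Prop :=
  ∀ (O : Type) [Ring O] (n δ : ℕ), 3 ≤ n → RingType O δ → finrank ℝ E + 1 < δ * n →
    ∀ Γ : Subgroup (GLn n O), Elem n O ≤ Γ → n ≠ 4 ∨ Γ = ⊤ ∨ finrank ℝ E + 1 < δ * 3 →
    ∀ α : Γ → (M ≃ₘ^∞⟮𝓘(ℝ, E), 𝓘(ℝ, E)⟯ M), IsHom α → ConclusionE α

/-- the group of `R`-linear automorphisms of `R^J`, as a type -/
def GLJ (R : Type) [CommRing R] (J : Type) : Type := (J → R) ≃ₗ[R] (J → R)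

instance (R : Type) [CommRing R] (J : Type) : Group (GLJ R J) :=
  LinearEquiv.automorphismGroup

/-- the map -/
def GLJ.app {R : Type} [CommRing R] {J : Type} (g : GLJ R J) (a : J → R) : J → R :=
  (show (J → R) ≃ₗ[R] (J → R) from g) a

/-- `g` permutes the basis up to signs -/
def Mnm {R : Type} [CommRing R] {J : Type} [DecidableEq J] (g : GLJ R J) : Prop :=
  ∀ b, b ∈ Mnl.BB R ↔ g.app b ∈ Mnl.BB R

/-- every normal subgroup is central or has finite index -/
def NSP (Γ : Type) [Group Γ] : Prop :=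
  ∀ N : Subgroup Γ, N.Normal → N ≤ Subgroup.center Γ ∨ Finite (Γ ⧸ N)

variable (E M) in
/-- Statement (3): groups which contain the monomial automorphisms of the octonions. -/
def StatementO : Prop :=
  ∀ (R : Type) [CommRing R], (1 : R) ≠ -1 → finrank ℝ E + 1 < 7 →
    ∀ Γ : Subgroup (GLJ R Mnl.I3),
    (∀ g, (∀ a b, g.app (Mnl.om a b) = Mnl.om (g.app a) (g.app b)) → Mnm g → g ∈ Γ) →
    ∀ α : Γ → (M ≃ₘ^∞⟮𝓘(ℝ, E), 𝓘(ℝ, E)⟯ M), IsHom α →
    (∀ (g : Γ) (a b c : ZMod 2), (∀ x z, GLJ.app (g : GLJ R Mnl.I3) x z =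
      Mnl.sgn R (a * z.1 + b * z.2.1 + c * z.2.2) * x z) → ∀ x, α g x = x) ∧
    (NSP Γ → (Set.range α).Finite)

variable (E M) in
/-- Statement (4): groups which contain the monomial automorphisms of the Albert algebra which
preserve the cubic form. -/
def StatementA : Prop :=
  ∀ (R : Type) [CommRing R], (1 : R) ≠ -1 → finrank ℝ E + 1 < 24 →
    ∀ Γ : Subgroup (GLJ R Mnl.J27),
    (∀ g, (∀ a b, g.app (Mnl.am a b) = Mnl.am (g.app a) (g.app b)) →
      (∀ a, Mnl.cub (g.app a) = Mnl.cub a) → Mnm g → g ∈ Γ) →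
    ∀ α : Γ → (M ≃ₘ^∞⟮𝓘(ℝ, E), 𝓘(ℝ, E)⟯ M), IsHom α →
    (∀ (g : Γ) (d : Fin 3 → ZMod 2), (∀ x i, GLJ.app (g : GLJ R Mnl.J27) x (Sum.inl i) =
      x (Sum.inl i)) → (∀ x i z, GLJ.app (g : GLJ R Mnl.J27) x (Sum.inr (i, z)) =
      Mnl.sgn R (d (i + 1) + d (i + 2)) * x (Sum.inr (i, z))) → ∀ x, α g x = x) ∧
    (NSP Γ → (Set.range α).Finite)

/-- the homomorphism `k ↦ i^k` -/
def ipow : Multiplicative (ZMod 4) →* GaussianInt := Lat.zh (⟨0, 1⟩ : GaussianInt) (by decide)

/-- the monomial matrices with entries `1, i, -1, -i` in the group `E_6(ℤ[i])` -/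
def Mono6 : Subgroup (GLn 6 GaussianInt) := Mono 6 ipow ⊓ Elem 6 GaussianInt

/-- the group `Mono6`, as a type -/
def P6 : Type := Mono6

instance : Group P6 := Subgroup.toGroup _

/-- the matrix of an element of `P6` -/
def P6.mat (g : P6) : Matrix (Fin 6) (Fin 6) GaussianInt :=
  GLn.mat ((show Mono6 from g : Mono6) : GLn 6 GaussianInt)

/-- `g` is a diagonal matrix with entries `1` and an even number of entries `-1`. -/
def P6.Even (g : P6) : Prop := ∃ v : Fin 6 → ZMod 2, ∑ i, v i = 0 ∧ g.mat = sgm v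

/-- the product of `P6` and the quaternion group of order `8`, as a type -/
def PQ : Type := P6 × QuaternionGroup 2

instance : Group PQ := Prod.instGroup

/-- the pair -/
def PQ.mk (g : P6) (s : QuaternionGroup 2) : PQ := (g, s)

variable (E M) in
/-- Statement (5): groups with a homomorphism from the product of `Mono6` and the quaternion group of
order `8` which is trivial on `(-1, -1)`. -/
def StatementS : Prop :=
  finrank ℝ E + 1 < 24 → ∀ (Γ : Type) [Group Γ] (ψ : PQ →* Γ),
    (∀ g : P6, g.mat = -1 → ψ (PQ.mk g (QuaternionGroup.a 2)) = 1) →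
    ∀ α : Γ → (M ≃ₘ^∞⟮𝓘(ℝ, E), 𝓘(ℝ, E)⟯ M), IsHom α →
    (∀ g : P6, g.Even → ∀ x, α (ψ (PQ.mk g 1)) x = x) ∧
    (NSP Γ → (∃ g : P6, g.Even ∧ ψ (PQ.mk g 1) ∉ Subgroup.center Γ) → (Set.range α).Finite)

/-! ### Proofs -/

theorem six_core [CompactSpace M] [T2Space M] [ConnectedSpace M] (hm : 0 < finrank ℝ E)
    (hM : Mod2Sphere M (finrank ℝ E)) (hlt : finrank ℝ E + 1 < 24) (Γ : Type) [Group Γ]
    (ψ : Mono6 × QuaternionGroup 2 →* Γ)
    (hψ : ∀ g : Mono6, GLn.mat (g : GLn 6 GaussianInt) = -1 → ψ (g, QuaternionGroup.a 2) = 1)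
    (α : Γ → (M ≃ₘ^∞⟮𝓘(ℝ, E), 𝓘(ℝ, E)⟯ M)) (hα : IsHom α) (g : Mono6) (v : Fin 6 → ZMod 2)
    (hv : ∑ i, v i = 0) (hg : GLn.mat (g : GLn 6 GaussianInt) = sgm v) (x : M) :
    α (ψ (g, 1)) x = x := by
  have huz : ipow (Multiplicative.ofAdd 2) = -1 := by
    unfold ipow
    rw [Lat.zh_apply]
    decide
  have hsg : ∀ v : Fin 6 → ZMod 2, ((dd ipow (zv (Multiplicative.ofAdd 2) v) :
      (Matrix (Fin 6) (Fin 6) GaussianInt)ˣ) : Matrix (Fin 6) (Fin 6) GaussianInt) = sgm v := by
    intro v
    rw [dd_coe]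
    unfold sgm
    congr 1
    funext i
    unfold zv
    split_ifs
    · exact map_one _
    · exact huz
  refine six_trivial hM hm hlt (z := Multiplicative.ofAdd 2) (x₀ := Multiplicative.ofAdd 1)
    (by decide) (by decide) (by decide) ipow huz ψ ?_ hα.action g v hv ?_ x
  · intro g' hg'
    apply hψ g'
    refine Eq.trans (congrArg Units.val hg') ?_
    rw [dd_coe, huz]
    apply Matrix.ext
    intro i j
    rw [neg_apply, one_apply, diagonal_apply]
    split_ifs
    · rfl
    · exact neg_zero.symm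
  · apply Units.ext
    rw [hsg v]
    exact hg

theorem six [CompactSpace M] [T2Space M] [ConnectedSpace M] (hm : 0 < finrank ℝ E)
    (hM : Mod2Sphere M (finrank ℝ E)) : StatementS E M := by
  intro hlt Γ _ ψ hψ α hα
  have htriv : ∀ g : P6, g.Even → ∀ x, α (ψ (PQ.mk g 1)) x = x := by
    rintro g ⟨v, hv, hg⟩ x
    exact six_core hm hM hlt Γ ψ hψ α hα g v hv hg x
  refine ⟨htriv, fun hNS hex => hα.finite_range ?_⟩
  obtain ⟨g, hg, hc⟩ := hex
  rcases hNS (actKer hα.action) inferInstance with h2 | h2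
  · exact absurd (h2 (htriv g hg)) hc
  · exact h2

theorem octonion [CompactSpace M] [T2Space M] [ConnectedSpace M] (hm : 0 < finrank ℝ E)
    (hM : Mod2Sphere M (finrank ℝ E)) : StatementO E M := by
  intro R _ h1 hlt Γ hΓ' α hα
  have hΓ : Mnl.stabB (Mnl.autO R) ≤ Γ := fun g hg => hΓ' g hg.1 hg.2
  have key : ∀ (a b c : ZMod 2) (z : Mnl.I3),
      a * z.1 + b * z.2.1 + c * z.2.2 = Mnl.wO z ⬝ᵥ ![a, b, c] := by
    decide
  refine ⟨?_, Mnl.oct_finite hM hm hlt h1 hΓ hα⟩
  rintro ⟨g, hgΓ⟩ a b c hg x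
  obtain rfl : g = Mnl.dg R Mnl.wO ![a, b, c] := by
    apply LinearEquiv.ext
    intro y
    funext z
    rw [Mnl.dg_apply, ← key]
    exact hg y z
  exact Mnl.oct_trivial hM hm hlt hΓ hα ![a, b, c] x

theorem albert [CompactSpace M] [T2Space M] [ConnectedSpace M] (hm : 0 < finrank ℝ E)
    (hM : Mod2Sphere M (finrank ℝ E)) : StatementA E M := by
  intro R _ h1 hlt Γ hΓ' α hα
  have hΓ : Mnl.stabB (Mnl.autC R) ≤ Γ := fun g hg => hΓ' g hg.1.1 hg.1.2 hg.2
  refine ⟨?_, Mnl.alb_finite hM hm hlt h1 hΓ hα⟩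
  rintro ⟨g, hgΓ⟩ d hg hg' x
  obtain rfl : g = Mnl.dg R Mnl.wA (Mnl.dv d) := by
    apply LinearEquiv.ext
    intro y
    funext j
    rw [Mnl.dg_apply]
    rcases j with i | ⟨i, z⟩
    · rw [Mnl.wA_inl, Mnl.sgn_zero, one_mul]
      exact hg y i
    · rw [Mnl.wA_inr]
      change _ = Mnl.sgn R (Mnl.wO z ⬝ᵥ (0 : Fin 3 → ZMod 2) + (d (i + 1) + d (i + 2))) * _
      rw [dotProduct_zero, zero_add]
      exact hg' y i z
  exact Mnl.alb_trivial hM hm hlt hΓ hα d x

theorem monomial_core [CompactSpace M] [T2Space M] [ConnectedSpace M] (hm : 0 < finrank ℝ E)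
    (hM : Mod2Sphere M (finrank ℝ E)) (O : Type) [Ring O] (h1 : (1 : O) ≠ -1) (n : ℕ) (hn : 3 ≤ n)
    (Q : Type) [Group Q] [Finite Q] (z : Q) (δ : ℕ) (u : Q →* O) (hz : QType Q z δ)
    (huz : u z = -1) (Γ : Subgroup (Matrix (Fin n) (Fin n) O)ˣ) (hΓ : mono u ≤ Γ)
    (hlt : finrank ℝ E + 1 < δ * n) (α : Γ → (M ≃ₘ^∞⟮𝓘(ℝ, E), 𝓘(ℝ, E)⟯ M)) (hα : IsHom α) :
    (∀ (g : Γ) (v : Fin n → ZMod 2), ∑ i, v i = 0 →
      ((g : (Matrix (Fin n) (Fin n) O)ˣ) : Matrix (Fin n) (Fin n) O) = sgm v → ∀ x, α g x = x) ∧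
    ((∀ N : Subgroup Γ, N.Normal →
      (∀ g ∈ N, ((g : (Matrix (Fin n) (Fin n) O)ˣ) : Matrix (Fin n) (Fin n) O) = 1 ∨
      ((g : (Matrix (Fin n) (Fin n) O)ˣ) : Matrix (Fin n) (Fin n) O) = -1) ∨ Finite (Γ ⧸ N)) →
      (Set.range α).Finite) := by
  have hsg : ∀ v : Fin n → ZMod 2,
      ((dd u (zv z v) : (Matrix (Fin n) (Fin n) O)ˣ) : Matrix (Fin n) (Fin n) O) = sgm v := by
    intro v
    rw [dd_coe]
    unfold sgm
    congr 1
    funext i
    unfold zv
    split_ifs
    · exact map_one _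
    · exact huz
  have htriv : ∀ (g : Γ) (v : Fin n → ZMod 2), ∑ i, v i = 0 →
      ((g : (Matrix (Fin n) (Fin n) O)ˣ) : Matrix (Fin n) (Fin n) O) = sgm v →
      ∀ x, α g x = x := by
    intro g v hv hg x
    have h2 := full_trivial hM hm hz u hΓ hα.action hlt v hv x
    have h3 : (⟨dd u (zv z v), hΓ (dd_mem u _)⟩ : Γ) = g := by
      apply Subtype.ext
      apply Units.ext
      rw [hg]
      exact hsg v
    rw [h3] at h2
    exact h2
  refine ⟨htriv, fun hNS => hα.finite_range ?_⟩
  rcases hNS (actKer hα.action) inferInstance with h2 | h2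
  · exfalso
    let i0 : Fin n := ⟨0, by omega⟩
    let i1 : Fin n := ⟨1, by omega⟩
    let i2 : Fin n := ⟨2, by omega⟩
    have h01 : i0 ≠ i1 := by simp [i0, i1]
    have h02 : i0 ≠ i2 := by simp [i0, i2]
    have h12 : i1 ≠ i2 := by simp [i1, i2]
    let v : Fin n → ZMod 2 := Pi.single i0 1 + Pi.single i1 1
    have hv : ∑ i, v i = 0 := by
      have e1 : ∀ k : Fin n, ∑ i, (Pi.single k 1 : Fin n → ZMod 2) i = 1 := by
        intro k
        rw [Finset.sum_eq_single k]
        · exact Pi.single_eq_same _ _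
        · intro i _ hi
          exact Pi.single_eq_of_ne hi _
        · intro h
          exact absurd (Finset.mem_univ _) h
      change ∑ i, ((Pi.single i0 1 : Fin n → ZMod 2) i + (Pi.single i1 1 : Fin n → ZMod 2) i) = 0
      rw [Finset.sum_add_distrib, e1, e1]
      decide
    have h3 := h2 ⟨dd u (zv z v), hΓ (dd_mem u _)⟩ (htriv _ v hv (hsg v))
    have v0 : v i0 = 1 := by
      change (Pi.single i0 1 : Fin n → ZMod 2) i0 + (Pi.single i1 1 : Fin n → ZMod 2) i0 = 1
      rw [Pi.single_eq_same, Pi.single_eq_of_ne h01, add_zero]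
    have v2 : v i2 = 0 := by
      change (Pi.single i0 1 : Fin n → ZMod 2) i2 + (Pi.single i1 1 : Fin n → ZMod 2) i2 = 0
      rw [Pi.single_eq_of_ne (Ne.symm h02), Pi.single_eq_of_ne (Ne.symm h12), add_zero]
    rcases h3 with h3 | h3
    · have h4 : sgm v = (1 : Matrix (Fin n) (Fin n) O) := (hsg v).symm.trans h3
      have h5 := congrFun (congrFun h4 i0) i0
      unfold sgm at h5
      rw [diagonal_apply_eq, one_apply_eq, v0, if_neg (by decide)] at h5
      exact h1 h5.symm
    · have h4 : sgm v = (-1 : Matrix (Fin n) (Fin n) O) := (hsg v).symm.trans h3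
      have h5 := congrFun (congrFun h4 i2) i2
      unfold sgm at h5
      rw [diagonal_apply_eq, neg_apply, one_apply_eq, v2, if_pos rfl] at h5
      exact h1 h5
  · exact h2

theorem mono_le {O : Type} [Ring O] [StarRing O] {n : ℕ} {a : O} {Q : Type} [Group Q]
    (u : Q →* O) (hu : ∀ q, star (u q) * a * u q = a) : mono u ≤ UH (fun _ : Fin n => a) := by
  rintro g ⟨q, σ, rfl⟩
  refine mul_mem ?_ ?_
  · exact (dU (a := fun _ : Fin n => a) (fun _ => u) (fun _ q => hu q) q).2
  · show (pmM σ : Matrix (Fin n) (Fin n) O)ᴴ * diagonal (fun _ => a) * pmM σ =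
      diagonal (fun _ => a)
    have e1 : (pmM σ : Matrix (Fin n) (Fin n) O)ᴴ = pmM σ⁻¹ := by
      ext i j
      rw [conjTranspose_apply]
      change star (if j = σ i then (1 : O) else 0) = if i = σ⁻¹ j then 1 else 0
      by_cases h : j = σ i
      · rw [if_pos h, if_pos (by rw [h]; exact (σ.symm_apply_apply i).symm), star_one]
      · rw [if_neg h, if_neg (fun h' => h (by rw [h']; exact (σ.apply_symm_apply j).symm)),
          star_zero]
    have e2 : diagonal (fun _ => a) * (pmM σ : Matrix (Fin n) (Fin n) O) =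
        pmM σ * diagonal (fun _ => a) := by
      ext i j
      rw [diagonal_mul, mul_diagonal]
      change a * (if i = σ j then (1 : O) else 0) = (if i = σ j then (1 : O) else 0) * a
      split_ifs
      · rw [mul_one, one_mul]
      · rw [mul_zero, zero_mul]
    rw [Matrix.mul_assoc, e2, ← Matrix.mul_assoc, e1, ← pmM_mul, inv_mul_cancel, pmM_one, one_mul]

theorem unitary [CompactSpace M] [T2Space M] [ConnectedSpace M] (hm : 0 < finrank ℝ E)
    (hM : Mod2Sphere M (finrank ℝ E)) : StatementU E M := by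
  intro O _ _ h1 n a hn α hα
  refine ⟨fun hlt => ?_, fun w hw hs hlt => ?_, fun w w' hw hw' hww hs hs' hlt => ?_⟩
  · have hn2 : (-1 : O) ^ 2 = 1 := by simp
    have huz : Lat.zh (-1 : O) hn2 (Multiplicative.ofAdd 1) = -1 := by
      rw [Lat.zh_apply]
      show (-1 : O) ^ ((1 : ZMod 2)).val = -1
      rw [show ((1 : ZMod 2)).val = 1 from rfl, pow_one]
    exact monomial_core hm hM O h1 n hn (Multiplicative (ZMod 2)) (Multiplicative.ofAdd 1) 1
      (Lat.zh (-1 : O) hn2) qtype_two huz (UH (fun _ : Fin n => a))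
      (mono_le _ (fun q => by
        rw [Lat.zh_apply]
        exact star_pow_inv (by simp) _)) (by omega) α hα
  · have hw4 : w ^ 4 = 1 := by
      rw [show (4 : ℕ) = 2 + 2 from rfl, pow_add, pow_two, hw]
      simp
    have huz : Lat.zh w hw4 (Multiplicative.ofAdd 2) = -1 := by
      rw [Lat.zh_apply]
      show w ^ ((2 : ZMod 4)).val = -1
      rw [show ((2 : ZMod 4)).val = 2 from rfl, pow_two, hw]
    exact monomial_core hm hM O h1 n hn (Multiplicative (ZMod 4)) (Multiplicative.ofAdd 2) 2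
      (Lat.zh w hw4) qtype_four huz (UH (fun _ : Fin n => a))
      (mono_le _ (fun q => by
        rw [Lat.zh_apply]
        exact star_pow_inv hs _)) hlt α hα
  · exact monomial_core hm hM O h1 n hn (QuaternionGroup 2) (QuaternionGroup.a 2) 4
      (qh w w' hw hw' hww) qtype_quat (qh_a2 _ _ _ _ _) (UH (fun _ : Fin n => a))
      (mono_le _ (fun q => qh_star hw hw' hww hs hs' q)) hlt α hα

theorem exists_type {O : Type} [Ring O] {δ : ℕ} (h : RingType O δ) :
    ∃ (Q : Type) (_ : Group Q) (_ : Finite Q) (z : Q) (u : Q →* O), QType Q z δ ∧ u z = -1 := by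
  rcases h with rfl | ⟨rfl, w, hw⟩ | ⟨rfl, w, w', hw, hw', hww⟩
  · have hn2 : (-1 : O) ^ 2 = 1 := by simp
    refine ⟨Multiplicative (ZMod 2), inferInstance, inferInstance, Multiplicative.ofAdd 1,
      Lat.zh (-1 : O) hn2, qtype_two, ?_⟩
    rw [Lat.zh_apply]
    show (-1 : O) ^ ((1 : ZMod 2)).val = -1
    rw [show ((1 : ZMod 2)).val = 1 from rfl, pow_one]
  · have hw4 : w ^ 4 = 1 := by
      rw [show (4 : ℕ) = 2 + 2 from rfl, pow_add, pow_two, hw]
      simp
    refine ⟨Multiplicative (ZMod 4), inferInstance, inferInstance, Multiplicative.ofAdd 2,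
      Lat.zh w hw4, qtype_four, ?_⟩
    rw [Lat.zh_apply]
    show w ^ ((2 : ZMod 4)).val = -1
    rw [show ((2 : ZMod 4)).val = 2 from rfl, pow_two, hw]
  · exact ⟨QuaternionGroup 2, inferInstance, inferInstance, QuaternionGroup.a 2,
      qh w w' hw hw' hww, qtype_quat, qh_a2 _ _ _ _ _⟩

/-- `g` belongs to `Γ` and acts trivially -/
def TrivM {O : Type} [Ring O] {n : ℕ} {Γ : Subgroup (Matrix (Fin n) (Fin n) O)ˣ}
    (α : Γ → (M ≃ₘ^∞⟮𝓘(ℝ, E), 𝓘(ℝ, E)⟯ M)) (g : (Matrix (Fin n) (Fin n) O)ˣ) : Prop :=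
  ∃ h : g ∈ Γ, ∀ x, α ⟨g, h⟩ x = x

theorem elementary [CompactSpace M] [T2Space M] [ConnectedSpace M] (hm : 0 < finrank ℝ E)
    (hM : Mod2Sphere M (finrank ℝ E)) (O : Type) [Ring O] (n δ : ℕ) (hn : 3 ≤ n)
    (hδ : RingType O δ) (hlt : finrank ℝ E + 1 < δ * n)
    (Γ : Subgroup (Matrix (Fin n) (Fin n) O)ˣ) (hE : EN n O ≤ Γ)
    (hn4 : n ≠ 4 ∨ Γ = ⊤ ∨ finrank ℝ E + 1 < δ * 3)
    (α : Γ → (M ≃ₘ^∞⟮𝓘(ℝ, E), 𝓘(ℝ, E)⟯ M)) (hα : IsHom α) :
    (∀ (c : O) (i j : Fin n) (h : i ≠ j), TrivM α (nel h (2 * c))) ∧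
    (finrank ℝ E + 2 < 2 ^ (n - 1) → (∀ g ∈ EN n O, TrivM α g) ∧
      (((EN n O).subgroupOf Γ).index ≠ 0 → (Set.range α).Finite)) ∧
    ((2 : O) ≠ 0 → (∀ N : Subgroup Γ, N.Normal → N ≤ Subgroup.center Γ ∨ Finite (Γ ⧸ N)) →
      (Set.range α).Finite) := by
  classical
  have hN := kN_norm hE hα.action
  obtain ⟨Q, _, _, z, u, hz, huz⟩ := exists_type hδ
  let i0 : Fin n := ⟨0, by omega⟩
  let i1 : Fin n := ⟨1, by omega⟩
  let i2 : Fin n := ⟨2, by omega⟩
  have h01 : i0 ≠ i1 := by simp [i0, i1]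
  have h02 : i0 ≠ i2 := by simp [i0, i2]
  have h12 : i1 ≠ i2 := by simp [i1, i2]
  have hev : dd u (zv z (Pi.single i0 1 + Pi.single i1 1)) ∈ kN hα.action := by
    rcases hn4 with h4 | h4 | h4
    · refine even_trivial hM hm hn hz u huz hE hα.action ?_ i0 i1
      unfold cnt
      rw [if_neg h4]
      exact hlt
    · have hΓ : mono u ≤ Γ := by
        rw [h4]
        exact le_top
      rw [mem_kN]
      refine ⟨hΓ (dd_mem u _), full_trivial hM hm hz u hΓ hα.action hlt _ ?_⟩
      have e1 : ∀ k : Fin n, ∑ i, (Pi.single k 1 : Fin n → ZMod 2) i = 1 := by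
        intro k
        rw [Finset.sum_eq_single k]
        · exact Pi.single_eq_same _ _
        · intro i _ hi
          exact Pi.single_eq_of_ne hi _
        · intro h
          exact absurd (Finset.mem_univ _) h
      change ∑ i, ((Pi.single i0 1 : Fin n → ZMod 2) i + (Pi.single i1 1 : Fin n → ZMod 2) i) = 0
      rw [Finset.sum_add_distrib, e1, e1]
      decide
    · refine even_trivial hM hm hn hz u huz hE hα.action ?_ i0 i1
      unfold cnt
      split_ifs
      · exact h4
      · exact hlt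
  have h2 : (2 : O) ∈ idl (kN hα.action) := two_mem_of_even hn hN hz.sq u huz h01 hev
  refine ⟨fun c i j h => ?_, fun hlt2 => ?_, fun h20 hNS => ?_⟩
  · exact (mem_kN hα.action _).1 (idl_right hN hn h2 c i j h)
  · have h3 := one_mem_idl hM hm hn hE hα.action h2 hlt2
    have h4 : EN n O ≤ kN hα.action := by
      unfold EN
      rw [Subgroup.closure_le]
      rintro _ ⟨i, j, h, c, rfl⟩
      have h5 := idl_right hN hn h3 c
      rw [one_mul] at h5
      exact h5 i j h
    refine ⟨fun g hg => (mem_kN hα.action _).1 (h4 hg), fun hfi => hα.finite_range ?_⟩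
    apply finite_of_EN hfi
    have h5 : ((EN n O).subgroupOf Γ).map (QuotientGroup.mk' (actKer hα.action)) = ⊥ := by
      rw [Subgroup.map_eq_bot_iff, QuotientGroup.ker_mk']
      intro g hg
      have h6 := h4 (show (g : (Matrix (Fin n) (Fin n) O)ˣ) ∈ EN n O from hg)
      rw [kN_mem] at h6
      exact h6
    rw [h5]
    infer_instance
  · refine hα.finite_range ?_
    rcases hNS (actKer hα.action) inferInstance with h3 | h3
    · exfalso
      obtain ⟨hΓ1, ht⟩ := (mem_kN hα.action _).1 (h2 i0 i1 h01)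
      have h4 := Subgroup.mem_center_iff.1 (h3 (show (⟨nel h01 2, hΓ1⟩ : Γ) ∈ actKer hα.action
        from ht)) ⟨nel h12 1, hE (nel_mem_EN _ _)⟩
      have h5 : nel h12 (1 : O) * nel h01 2 = nel h01 2 * nel h12 1 := congrArg Subtype.val h4
      have h6 := nel_comm_eq h01 h12 h02 (2 : O) 1
      rw [← h5, mul_inv_cancel_right, mul_inv_cancel, mul_one] at h6
      apply h20
      have h7 := congrArg (fun g : (Matrix (Fin n) (Fin n) O)ˣ =>
        (g : Matrix (Fin n) (Fin n) O) i0 i2) h6
      simp only [Units.val_one, nel_coe, Matrix.add_apply, single_apply_same] at h7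
      rw [one_apply_ne h02, zero_add] at h7
      exact h7.symm
    · exact h3

/-- **Groups with many monomial matrices acting on spheres.**  Let `M` be a closed connected smooth
manifold of dimension `m ≥ 1` which is homeomorphic to the sphere of dimension `m` or has its mod 2
cohomology.  In (1), (2) let `O` be a ring, `n ≥ 3` and `m + 1 < δ n`, where `δ = 1`; or `δ = 2` and
`w ∈ O`, `w² = -1`; or `δ = 4`, and moreover `w' ∈ O`, `w'² = -1`, `w w' = - w' w`.
(1) Let `1 ≠ -1` in `O`, with an involution `*`, `a ∈ O`, `w* a w = a` (if `δ = 2, 4`),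
`w'* a w' = a` (if `δ = 4`), and `Γ` the unitary group of the form `∑ x_i* a x_i`, `i ≤ n`.  Then for
every homomorphism `α : Γ → Diff(M)` the diagonal matrices with entries `1` and an even number of
entries `-1` act trivially, and `α` has finite image if every normal subgroup of `Γ` is contained in
`{1, -1}` or has finite index.
(2) Let `Γ` be a group of invertible `n × n` matrices over `O` which contains the elementary
matrices, and `n ≠ 4` or `Γ = GL_n(O)` or `m + 1 < 3 δ`.  Then for every homomorphism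
`α : Γ → Diff(M)` the elementary matrices with entries in `2 O` act trivially; if
`m + 2 < 2 ^ (n - 1)` then all elementary matrices act trivially, and `α` has
finite image if `E_n(O)` has finite index in `Γ`; and `α` has finite image if `2 ≠ 0` in `O` and every
normal subgroup of `Γ` is central or has finite index.
(3) Let `R` be a commutative ring in which `1 ≠ -1`, and `Γ` a group of `R`-linear automorphisms of
`R^8` which contains those automorphisms of the octonions over `R` which permute the basis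
`e_z`, `z ∈ (ℤ/2)³`, up to signs.  If `m + 1 < 7` then for every homomorphism `α : Γ → Diff(M)` the
changes of signs `e_z ↦ (-1)^(a z₁ + b z₂ + c z₃) e_z` act trivially, and `α` has finite image if
every normal subgroup of `Γ` is central or has finite index.
(4) The same for `m + 1 < 24`, `R^27` and the Albert algebra over `R` (the automorphisms which
permute the basis up to signs and preserve the determinant belong to `Γ`), with the changes of signs
which multiply the entries `x_i` of hermitian `3 × 3` matrices over the octonions by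
`(-1)^(d_(i + 1) + d_(i + 2))`, that is the conjugations with the diagonal matrices with entries
`(-1)^(d_i)`.
(5) Let `P` be the group of the monomial matrices in `E_6(ℤ[i])` with entries `1, i, -1, -i`, and
`ψ : P × Q₈ → Γ` a homomorphism to any group with `ψ (-1, -1) = 1`.  If `m + 1 < 24` then for every
homomorphism `α : Γ → Diff(M)` the elements `ψ (g, 1)`, `g` diagonal with entries `1` and an even
number of entries `-1`, act trivially, and `α` has finite image if one of them is not central in `Γ`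
and every normal subgroup of `Γ` is central or has finite index. -/
theorem result [CompactSpace M] [T2Space M] [ConnectedSpace M] (hm : 0 < finrank ℝ E)
    (hS : SphereLike M (finrank ℝ E)) :
    StatementU E M ∧ StatementE E M ∧ StatementO E M ∧ StatementA E M ∧ StatementS E M :=
  have hM : Mod2Sphere M (finrank ℝ E) := SphereLike.mod2 E hm hS
  ⟨unitary hm hM,
    fun O _ n δ hn hδ hlt Γ hE hn4 α hα => elementary hm hM O n δ hn hδ hlt Γ hE hn4 α hα,
    octonion hm hM, albert hm hM, six hm hM⟩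

end Pool.Agent.Results.MP_d483fb_an.MonomialSpheresH7
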