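import Pool.Agent.N287.ZM.FIG

/-!
# MP_d483fb_an: elements of odd order in lattices of orthogonal groups, and unimodular lattices

Part A: unitary groups of diagonal hermitian forms `∑ x_i* a_i x_i` over any ring `O` with
involution, which contain elements `u_i` of odd prime order `p` with `u_i* a_i u_i = a_i`.  With `O`
the ring of `2 × 2` matrices over a commutative ring `R` and transposition as the involution these are
the orthogonal groups of the forms `∑ α_i (x_i² + t x_i y_i + y_i²)` over `R`, where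
`t = ζ + ζ⁻¹`, `ζ` a `p`-th root of unity (which need not be in `R`); for `R` the ring of integers of
a number field which contains `ℚ(ζ + ζ⁻¹)` they are lattices in products of groups `SO(r, s)` and
`SO(2 n, ℂ)`.  With quaternion orders one gets lattices in `SO*(2 n)` and `Sp(r, s)`.

Part B: orthogonal groups of even unimodular lattices `E₈^a ⊕ U^b`, lattices in `O(8 a + b, b)`.
-/

set_option autoImplicit false

namespace Pool.Agent.Results.MP_d483fb_an.OrthogonalLatticesH93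

open scoped Manifold ContDiff
open Pool.Agent.H185.ZM Pool.Agent.N287.ZM Module Matrix

variable {E : Type} [NormedAddCommGroup E] [NormedSpace ℝ E] [FiniteDimensional ℝ E]
  {M : Type} [TopologicalSpace M] [ChartedSpace E M] [IsManifold 𝓘(ℝ, E) ∞ M]

/-! ### General groups -/

/-- powers of an element of order dividing `p` -/
def zh {G : Type} [Monoid G] {p : ℕ} [NeZero p] (z : G) (hz : z ^ p = 1) :
    Multiplicative (ZMod p) →* G where
  toFun x := z ^ (x.toAdd).val
  map_one' := by simp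
  map_mul' x y := by
    have h1 : (x * y).toAdd = x.toAdd + y.toAdd := rfl
    rw [h1, ZMod.val_add, ← pow_add]
    conv_rhs => rw [← Nat.mod_add_div (x.toAdd.val + y.toAdd.val) p, pow_add, pow_mul, hz,
      one_pow, mul_one]

lemma zh_apply {G : Type} [Monoid G] {p : ℕ} [NeZero p] (z : G) (hz : z ^ p = 1)
    (x : Multiplicative (ZMod p)) : zh z hz x = z ^ (x.toAdd).val := rfl

/-- an element of prime order: the powers are different -/
lemma pow_eq_one_val {G : Type} [Monoid G] {p : ℕ} (hp : p.Prime) [NeZero p] {z : G}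
    (hz : z ^ p = 1) (hz1 : z ≠ 1) (x : Multiplicative (ZMod p)) (h : z ^ (x.toAdd).val = 1) :
    x = 1 := by
  by_contra hx
  have hv : (x.toAdd).val ≠ 0 := by
    intro h0
    apply hx
    have := (ZMod.val_eq_zero x.toAdd).1 h0
    exact this
  have hlt : (x.toAdd).val < p := ZMod.val_lt _
  have hcop : Nat.Coprime (x.toAdd).val p := by
    rw [Nat.coprime_comm]
    exact (Nat.Prime.coprime_iff_not_dvd hp).2 (fun hd => by
      have := Nat.le_of_dvd (Nat.pos_of_ne_zero hv) hd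
      omega)
  apply hz1
  have h1 : orderOf z ∣ (x.toAdd).val := orderOf_dvd_of_pow_eq_one h
  have h2 : orderOf z ∣ p := orderOf_dvd_of_pow_eq_one hz
  have h3 : orderOf z ∣ 1 := by
    have := Nat.dvd_gcd h1 h2
    rwa [Nat.Coprime.gcd_eq_one hcop] at this
  have h4 : orderOf z = 1 := Nat.dvd_one.1 h3
  exact orderOf_eq_one_iff.1 h4

lemma mult_pow {p : ℕ} (x : Multiplicative (ZMod p)) : x ^ p = 1 := by
  show (p : ℕ) • x.toAdd = 0
  simp

/-- `p ^ k` does not divide `p ^ ⌊m / 2⌋ * χ * N` -/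
def CondP (p k m N : ℕ) (χ : ℤ) : Prop := ¬ ((p : ℤ) ^ k ∣ (p : ℤ) ^ (m / 2) * χ * N)

lemma cond_aux {p a b : ℕ} (hp : p.Prime) {χ : ℤ} (hχ : ¬ (p : ℤ) ∣ χ) (hab : b < a) :
    ¬ ((p : ℤ) ^ a ∣ p ^ b * χ) := by
  intro hdvd
  have h1 : (p : ℤ) ^ a = p ^ b * p ^ (a - b) := by
    rw [← pow_add]
    congr 1
    omega
  rw [h1] at hdvd
  have hp0 : (0 : ℤ) < p := by exact_mod_cast hp.pos
  have h5 := Int.dvd_of_mul_dvd_mul_left (by positivity) hdvd
  exact hχ ((dvd_pow_self (p : ℤ) (by omega)).trans h5)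

theorem condP_of {p k m N : ℕ} (hp : p.Prime) {χ : ℤ} (hχ : ¬ (p : ℤ) ∣ χ * N)
    (h : m < 2 * k) : CondP p k m N χ := by
  unfold CondP
  rw [mul_assoc]
  exact cond_aux hp hχ (by omega)

/-- the core statement for odd primes -/
theorem odd_core [CompactSpace M] [T2Space M] [ConnectedSpace M] {Γ : Type} [Group Γ]
    (Γ' : Subgroup Γ) [Finite (Γ ⧸ Γ')] {ι : Type} [Fintype ι] {p : ℕ} (hp : p.Prime)
    (hp2 : p ≠ 2) (φ : (ι → Multiplicative (ZMod p)) →* Γ)
    {α : Γ' → (M ≃ₘ^∞⟮𝓘(ℝ, E), 𝓘(ℝ, E)⟯ M)} (hα : IsHom α)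
    (h : CondP p (Fintype.card ι) (finrank ℝ E) Γ'.index (Pool.Agent.Helper381.eulerChar M)) :
    ∃ (x : ι → Multiplicative (ZMod p)) (γ : Γ) (hx : γ⁻¹ * φ x * γ ∈ Γ'), x ≠ 1 ∧
      (⟨_, hx⟩ : Γ') ∈ actKer hα.action := by
  have : NeZero p := ⟨hp.ne_zero⟩
  have hcard : Nat.card (ι → Multiplicative (ZMod p)) = p ^ Fintype.card ι := by
    rw [Nat.card_fun]
    simp
  refine fi_odd_gen Γ' hp hp2 (fun x => ?_) φ (fun x => x = 1) 1 (fun K hK => ?_) hα.action ?_
  · funext i
    exact mult_pow _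
  · have h1 : K = ⊥ := (Subgroup.eq_bot_iff_forall K).2 hK
    rw [h1]
    simp
  · rw [hcard]
    intro h2
    apply h
    have e : ((1 : ℕ) : ℤ) * (((p ^ (finrank ℝ E / 2) : ℕ) : ℤ) *
        Pool.Agent.Helper381.eulerChar M) * Γ'.index =
        (p : ℤ) ^ (finrank ℝ E / 2) * Pool.Agent.Helper381.eulerChar M * Γ'.index := by
      push_cast
      ring
    rw [e] at h2
    exact_mod_cast h2

/-- Every normal subgroup has no element of order `p` or has finite index. -/
def NSP (p : ℕ) {G : Type} [Group G] : Prop :=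
  ∀ N : Subgroup G, N.Normal → (∀ g ∈ N, g ^ p = 1 → g = 1) ∨ Finite (G ⧸ N)

variable (E M) in
/-- Statement (1), general groups. -/
def StatementG (p : ℕ) : Prop :=
  ∀ (Γ : Type) [Group Γ] (Γ' : Subgroup Γ) (ι : Type) [Fintype ι]
    (φ : (ι → Multiplicative (ZMod p)) →* Γ), Finite (Γ ⧸ Γ') → Function.Injective φ →
    ∀ α : Γ' → (M ≃ₘ^∞⟮𝓘(ℝ, E), 𝓘(ℝ, E)⟯ M), IsHom α →
    CondP p (Fintype.card ι) (finrank ℝ E) Γ'.index (Pool.Agent.Helper381.eulerChar M) →
    (∃ (g : Γ') (γ : Γ) (x : ι → Multiplicative (ZMod p)), (∀ y, α g y = y) ∧ g ≠ 1 ∧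
      γ * (g : Γ) * γ⁻¹ = φ x) ∧
    (NSP p (G := Γ') → (Set.range α).Finite)

theorem general [CompactSpace M] [T2Space M] [ConnectedSpace M] {p : ℕ} (hp : p.Prime)
    (hp2 : p ≠ 2) : StatementG E M p := by
  intro Γ _ Γ' ι _ φ hfin hφ α hα h
  obtain ⟨x, γ, hx, hx1, hker⟩ := odd_core Γ' hp hp2 φ hα h
  have hg1 : (⟨_, hx⟩ : Γ') ≠ 1 := by
    intro h1
    apply hx1
    apply hφ
    rw [map_one]
    have h2 : γ⁻¹ * φ x * γ = 1 := congrArg Subtype.val h1
    have h3 : φ x = γ * (γ⁻¹ * φ x * γ) * γ⁻¹ := by group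
    rw [h3, h2]
    group
  refine ⟨⟨⟨_, hx⟩, γ, x, hker, hg1, by show γ * (γ⁻¹ * φ x * γ) * γ⁻¹ = _; group⟩,
    fun hNS => ?_⟩
  apply hα.finite_range
  rcases hNS (actKer hα.action) inferInstance with h1 | h1
  · exfalso
    apply hg1
    apply h1 _ hker
    apply Subtype.ext
    show (γ⁻¹ * φ x * γ) ^ p = 1
    have h2 : (γ⁻¹ * φ x * γ) ^ p = γ⁻¹ * (φ x) ^ p * γ := by
      have := conj_pow (i := p) (a := γ⁻¹) (b := φ x)
      rw [inv_inv] at this
      exact this
    rw [h2, ← map_pow]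
    have h3 : x ^ p = 1 := by
      funext i
      exact mult_pow _
    rw [h3, map_one]
    group
  · exact h1

/-! ### Unitary groups over rings with involution -/

/-- the unitary group of the form `∑ x_i* a_i x_i` over the ring `O` with involution -/
def UH {O : Type} [Ring O] [StarRing O] {n : ℕ} (a : Fin n → O) :
    Subgroup (Matrix (Fin n) (Fin n) O)ˣ where
  carrier := {g | (g : Matrix (Fin n) (Fin n) O)ᴴ * diagonal a * (g : Matrix (Fin n) (Fin n) O) =
    diagonal a}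
  one_mem' := by
    show (1 : Matrix (Fin n) (Fin n) O)ᴴ * diagonal a * (1 : Matrix (Fin n) (Fin n) O) = diagonal a
    rw [conjTranspose_one, one_mul, mul_one]
  mul_mem' := by
    intro g h hg hh
    have hg' : (g : Matrix (Fin n) (Fin n) O)ᴴ * diagonal a * (g : Matrix (Fin n) (Fin n) O) =
      diagonal a := hg
    have hh' : (h : Matrix (Fin n) (Fin n) O)ᴴ * diagonal a * (h : Matrix (Fin n) (Fin n) O) =
      diagonal a := hh
    show ((g : Matrix (Fin n) (Fin n) O) * (h : Matrix (Fin n) (Fin n) O))ᴴ * diagonal a *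
      ((g : Matrix (Fin n) (Fin n) O) * (h : Matrix (Fin n) (Fin n) O)) = diagonal a
    rw [conjTranspose_mul]
    calc _ = (h : Matrix (Fin n) (Fin n) O)ᴴ * ((g : Matrix (Fin n) (Fin n) O)ᴴ * diagonal a *
        (g : Matrix (Fin n) (Fin n) O)) * (h : Matrix (Fin n) (Fin n) O) := by
          simp only [Matrix.mul_assoc]
      _ = diagonal a := by rw [hg', hh']
  inv_mem' := by
    intro g hg
    have hg' : (g : Matrix (Fin n) (Fin n) O)ᴴ * diagonal a * (g : Matrix (Fin n) (Fin n) O) =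
      diagonal a := hg
    show ((g⁻¹ : (Matrix (Fin n) (Fin n) O)ˣ) : Matrix (Fin n) (Fin n) O)ᴴ * diagonal a *
      ((g⁻¹ : (Matrix (Fin n) (Fin n) O)ˣ) : Matrix (Fin n) (Fin n) O) = diagonal a
    have h1 : (g : Matrix (Fin n) (Fin n) O) *
        ((g⁻¹ : (Matrix (Fin n) (Fin n) O)ˣ) : Matrix (Fin n) (Fin n) O) = 1 := g.mul_inv
    have h2 : ((g⁻¹ : (Matrix (Fin n) (Fin n) O)ˣ) : Matrix (Fin n) (Fin n) O)ᴴ *
        (g : Matrix (Fin n) (Fin n) O)ᴴ = 1 := by
      rw [← conjTranspose_mul, h1, conjTranspose_one]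
    conv_lhs => rw [← hg']
    calc _ = (((g⁻¹ : (Matrix (Fin n) (Fin n) O)ˣ) : Matrix (Fin n) (Fin n) O)ᴴ *
        (g : Matrix (Fin n) (Fin n) O)ᴴ) * diagonal a * ((g : Matrix (Fin n) (Fin n) O) *
        ((g⁻¹ : (Matrix (Fin n) (Fin n) O)ˣ) : Matrix (Fin n) (Fin n) O)) := by
          simp only [Matrix.mul_assoc]
      _ = diagonal a := by rw [h1, h2, one_mul, mul_one]

/-- the value at a unitary matrix -/
abbrev um {O : Type} [Ring O] [StarRing O] {n : ℕ} {a : Fin n → O} (g : UH a) :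
    Matrix (Fin n) (Fin n) O := ((g : (Matrix (Fin n) (Fin n) O)ˣ) : Matrix (Fin n) (Fin n) O)

/-- auxiliary form of `NSU` below -/
def NSU0 {O : Type} [Ring O] [StarRing O] {n : ℕ} {a : Fin n → O} (Γ' : Subgroup (UH a)) : Prop :=
  ∀ N : Subgroup Γ', N.Normal → (∀ g ∈ N, um (g : UH a) = 1 ∨ um (g : UH a) = -1) ∨
    Finite (Γ' ⧸ N)

/-- auxiliary form of `ConclusionU` below -/
def ConclusionU0 {O : Type} [Ring O] [StarRing O] {n : ℕ} {a : Fin n → O} (p : ℕ) (u : Fin n → O)
    {Γ' : Subgroup (UH a)} (α : Γ' → (M ≃ₘ^∞⟮𝓘(ℝ, E), 𝓘(ℝ, E)⟯ M)) : Prop :=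
  (∃ (g : Γ') (γ : UH a) (e : Fin n → ℕ), (∀ x, α g x = x) ∧ g ≠ 1 ∧ g ^ p = 1 ∧
    um (γ * (g : UH a) * γ⁻¹) = diagonal (fun i => u i ^ e i)) ∧
  (NSU0 Γ' → (Set.range α).Finite)

/-- the homomorphism of the group of exponents to the diagonal matrices -/
def dh {O : Type} [Ring O] {n p : ℕ} [NeZero p] (S : Finset (Fin n)) (u : Fin n → O)
    (hu : ∀ i, u i ^ p = 1) :
    (S → Multiplicative (ZMod p)) →* (Matrix (Fin n) (Fin n) O)ˣ :=
  MonoidHom.toHomUnits
    { toFun := fun e => diagonal (fun i => if h : i ∈ S then zh (u i) (hu i) (e ⟨i, h⟩) else 1)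
      map_one' := by
        have : (fun i => if h : i ∈ S then zh (u i) (hu i)
            ((1 : S → Multiplicative (ZMod p)) ⟨i, h⟩) else (1 : O)) = fun _ => 1 := by
          funext i
          split_ifs
          · rw [Pi.one_apply, map_one]
          · rfl
        rw [this]
        exact diagonal_one
      map_mul' := fun e f => by
        rw [diagonal_mul_diagonal]
        congr 1
        funext i
        split_ifs with h
        · rw [Pi.mul_apply, map_mul]
        · rw [mul_one] }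

lemma dh_coe {O : Type} [Ring O] {n p : ℕ} [NeZero p] (S : Finset (Fin n)) (u : Fin n → O)
    (hu : ∀ i, u i ^ p = 1) (e : S → Multiplicative (ZMod p)) :
    ((dh S u hu e : (Matrix (Fin n) (Fin n) O)ˣ) : Matrix (Fin n) (Fin n) O) =
      diagonal (fun i => u i ^ (if h : i ∈ S then (e ⟨i, h⟩).toAdd.val else 0)) := by
  show diagonal (fun i => if h : i ∈ S then zh (u i) (hu i) (e ⟨i, h⟩) else 1) = _
  congr 1
  funext i
  split_ifs with h
  · rfl
  · rw [pow_zero]

/-- **Unitary groups.** -/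
theorem unitary [CompactSpace M] [T2Space M] [ConnectedSpace M] {O : Type} [Ring O] [StarRing O]
    {p : ℕ} (hp : p.Prime) (hp2 : p ≠ 2) {n : ℕ} (a u : Fin n → O)
    (S : Finset (Fin n)) (hS : ∀ i ∈ S, u i ≠ 1)
    (hu : ∀ i, u i ^ p = 1) (hs : ∀ i, star (u i) * a i * u i = a i)
    (Γ' : Subgroup (UH a)) (hfin : Finite (UH a ⧸ Γ')) (α : Γ' → (M ≃ₘ^∞⟮𝓘(ℝ, E), 𝓘(ℝ, E)⟯ M))
    (hα : IsHom α)
    (h : CondP p S.card (finrank ℝ E) Γ'.index (Pool.Agent.Helper381.eulerChar M)) :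
    ConclusionU0 p u α := by
  classical
  have : NeZero p := ⟨hp.ne_zero⟩
  have hpow : ∀ (i : Fin n) (e : ℕ), star (u i ^ e) * a i * u i ^ e = a i := by
    intro i e
    induction e with
    | zero => simp
    | succ e ih =>
      rw [pow_succ, star_mul]
      have e1 : star (u i) * star (u i ^ e) * a i * (u i ^ e * u i) =
          star (u i) * (star (u i ^ e) * a i * u i ^ e) * u i := by noncomm_ring
      rw [e1, ih, hs]
  have hmem : ∀ x, dh S u hu x ∈ UH a := by
    intro x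
    show ((dh S u hu x : (Matrix (Fin n) (Fin n) O)ˣ) : Matrix (Fin n) (Fin n) O)ᴴ * diagonal a *
      ((dh S u hu x : (Matrix (Fin n) (Fin n) O)ˣ) : Matrix (Fin n) (Fin n) O) = diagonal a
    rw [dh_coe, diagonal_conjTranspose, diagonal_mul_diagonal, diagonal_mul_diagonal]
    congr 1
    funext i
    exact hpow i _
  let φ : (S → Multiplicative (ZMod p)) →* UH a :=
    { toFun := fun x => ⟨dh S u hu x, hmem x⟩
      map_one' := Subtype.ext (map_one _)
      map_mul' := fun x y => Subtype.ext (map_mul _ x y) }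
  have hφ : Function.Injective φ := by
    rw [injective_iff_map_eq_one]
    intro x hx
    have h1 : ((dh S u hu x : (Matrix (Fin n) (Fin n) O)ˣ) : Matrix (Fin n) (Fin n) O) = 1 :=
      congrArg (fun w : UH a => um w) hx
    rw [dh_coe] at h1
    funext ⟨i, hi⟩
    have h3 := congrFun (congrFun h1 i) i
    rw [diagonal_apply_eq, one_apply_eq, dif_pos hi] at h3
    exact pow_eq_one_val hp (hu i) (hS i hi) _ h3
  have hcard : Fintype.card S = S.card := Fintype.card_coe S
  obtain ⟨⟨g, γ, x, hg, hg1, hgx⟩, -⟩ := general (E := E) (M := M) hp hp2 (UH a) Γ' S φ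
    inferInstance hφ α hα (by rw [hcard]; exact h)
  have hgp : g ^ p = 1 := by
    apply Subtype.ext
    show (g : UH a) ^ p = 1
    have h1 : (g : UH a) = γ⁻¹ * φ x * (γ⁻¹)⁻¹ := by rw [← hgx]; group
    rw [h1, conj_pow, ← map_pow]
    have h3 : x ^ p = 1 := by
      funext i
      exact mult_pow _
    rw [h3, map_one]
    group
  refine ⟨⟨g, γ, _, hg, hg1, hgp, by rw [hgx]; exact dh_coe S u hu x⟩, fun hNS => ?_⟩
  apply hα.finite_range
  rcases hNS (actKer hα.action) inferInstance with h1 | h1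
  · exfalso
    have h4 : um ((g ^ p : Γ') : UH a) = um (g : UH a) ^ p := rfl
    rcases h1 g hg with h5 | h5
    · apply hg1
      apply Subtype.ext
      apply Subtype.ext
      apply Units.ext
      exact h5
    · rw [h5, hgp, (hp.odd_of_ne_two hp2).neg_one_pow] at h4
      have h6 : (1 : Matrix (Fin n) (Fin n) O) = -1 := h4
      apply hg1
      apply Subtype.ext
      apply Subtype.ext
      apply Units.ext
      show um (g : UH a) = 1
      rw [h5, ← h6]
  · exact h1

/-! ### Blocks of size two -/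

/-- the matrix of the multiplication by a root of `x² - t x + 1` -/
def comp {R : Type} [CommRing R] (t : R) : Matrix (Fin 2) (Fin 2) R := !![0, -1; 1, t]

/-- the matrix of the even form `2 c (x² + t x y + y²)` -/
def frm {R : Type} [CommRing R] (c t : R) : Matrix (Fin 2) (Fin 2) R := !![2 * c, c * t; c * t, 2 * c]

lemma comp_star {R : Type} [CommRing R] [StarRing R] (c t : R) (ht : star t = t) :
    star (comp t) * frm c t * comp t = frm c t := by
  have h1 : star (comp t) = !![0, 1; -1, t] := by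
    ext i j
    fin_cases i <;> fin_cases j <;> simp [comp, Matrix.star_apply, ht]
  rw [h1]
  unfold frm comp
  ext i j
  fin_cases i <;> fin_cases j <;> simp [Matrix.mul_apply, Fin.sum_univ_two] <;> ring

lemma comp_ne_one {R : Type} [CommRing R] [Nontrivial R] (t : R) : comp t ≠ 1 := by
  intro h
  have h1 := congrFun (congrFun h 1) 0
  simp [comp] at h1

lemma comp_pow_aux {S : Type} [CommRing S] {x y : S} (hxy : x * y = 1) (n : ℕ) :
    (x - y) • (comp (x + y)) ^ n =
      !![-(x ^ n * y - y ^ n * x), -(x ^ n - y ^ n); x ^ n - y ^ n, x ^ n * x - y ^ n * y] := by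
  induction n with
  | zero =>
    ext i j
    fin_cases i <;> fin_cases j <;> simp
  | succ n ih =>
    rw [pow_succ, ← smul_mul_assoc, ih]
    unfold comp
    ext i j
    fin_cases i <;> fin_cases j <;> simp [Matrix.mul_apply, Fin.sum_univ_two]
    · rw [pow_succ, pow_succ]
      linear_combination (x ^ n - y ^ n) * hxy
    · rw [pow_succ, pow_succ]
      ring
    · ring
    · rw [pow_succ, pow_succ]
      linear_combination (x ^ n - y ^ n) * hxy

/-- `comp t` has order `p` if `t` is the sum of a `p`-th root of unity and its inverse in a domain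
which contains `R` -/
theorem comp_pow {R S : Type} [CommRing R] [CommRing S] [IsDomain S] (f : R →+* S)
    (hf : Function.Injective f) {p : ℕ} (hp : p.Prime) (hp2 : p ≠ 2) {x y : S} (hxy : x * y = 1)
    (hx : x ^ p = 1) (hx1 : x ≠ 1) {t : R} (ht : f t = x + y) : comp t ^ p = 1 := by
  have hy : y ^ p = 1 := by
    have h1 : x ^ p * y ^ p = 1 := by rw [← mul_pow, hxy, one_pow]
    rwa [hx, one_mul] at h1
  have hne : x - y ≠ 0 := by
    intro h0
    have h1 : x = y := sub_eq_zero.1 h0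
    have h2 : x ^ 2 = 1 := by rw [pow_two]; nth_rewrite 2 [h1]; exact hxy
    have h3 : orderOf x ∣ 2 := orderOf_dvd_of_pow_eq_one h2
    have h4 : orderOf x ∣ p := orderOf_dvd_of_pow_eq_one hx
    have h5 : Nat.Coprime 2 p := (Nat.coprime_primes Nat.prime_two hp).2 (Ne.symm hp2)
    have h6 : orderOf x ∣ 1 := by
      have := Nat.dvd_gcd h3 h4
      rwa [Nat.Coprime.gcd_eq_one h5] at this
    exact hx1 (orderOf_eq_one_iff.1 (Nat.dvd_one.1 h6))
  have h1 := comp_pow_aux hxy p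
  rw [hx, hy, ← ht] at h1
  have h2 : (comp (f t)) ^ p = f.mapMatrix (comp t ^ p) := by
    rw [map_pow]
    congr 1
    ext i j
    fin_cases i <;> fin_cases j <;> simp [comp]
  rw [h2] at h1
  have h3 : f.mapMatrix (comp t ^ p) = f.mapMatrix 1 := by
    ext i j
    have h4 := congrFun (congrFun h1 i) j
    apply mul_left_cancel₀ hne
    rw [Matrix.smul_apply, smul_eq_mul] at h4
    rw [h4]
    fin_cases i <;> fin_cases j <;> simp
  ext i j
  apply hf
  exact congrFun (congrFun h3 i) j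

/-! ### Orthogonal groups of integral lattices -/

/-- `B` is a symmetric biadditive form -/
structure IsForm {V : Type} [AddCommGroup V] (B : V → V → ℤ) : Prop where
  add : ∀ x y z, B (x + y) z = B x z + B y z
  symm : ∀ x y, B x y = B y x

section lattice

variable {V : Type} [AddCommGroup V] {B : V → V → ℤ}

lemma IsForm.zsmul (hB : IsForm B) (c : ℤ) (x y : V) : B (c • x) y = c * B x y := by
  let f : V →+ ℤ := AddMonoidHom.mk' (fun x => B x y) (fun x z => hB.add x z y)
  have := map_zsmul f c x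
  rw [smul_eq_mul] at this
  exact this

lemma IsForm.neg (hB : IsForm B) (x y : V) : B (-x) y = - B x y := by
  have := hB.zsmul (-1) x y
  rw [neg_one_zsmul] at this
  rw [this]
  ring

lemma IsForm.sub (hB : IsForm B) (x y z : V) : B (x - y) z = B x z - B y z := by
  rw [sub_eq_add_neg, hB.add, hB.neg]
  ring

lemma IsForm.sub_right (hB : IsForm B) (x y z : V) : B x (y - z) = B x y - B x z := by
  rw [hB.symm, hB.sub, hB.symm y, hB.symm z]

lemma IsForm.zsmul_right (hB : IsForm B) (c : ℤ) (x y : V) : B x (c • y) = c * B x y := by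
  rw [hB.symm, hB.zsmul, hB.symm]

/-- the orthogonal group of the lattice `(V, B)` -/
def OL (B : V → V → ℤ) : Subgroup (V ≃ₗ[ℤ] V) where
  carrier := {g | ∀ x y, B (g x) (g y) = B x y}
  one_mem' := fun x y => rfl
  mul_mem' := fun {g h} hg hh x y => by
    show B (g (h x)) (g (h y)) = B x y
    rw [hg, hh]
  inv_mem' := fun {g} hg x y => by
    have h1 := hg (g⁻¹ x) (g⁻¹ y)
    have h2 : ∀ z, g (g⁻¹ z) = z := fun z => g.apply_symm_apply z
    rw [h2, h2] at h1
    exact h1.symm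

/-- the value of an isometry at a vector -/
abbrev ev (g : OL B) (x : V) : V := (g : V ≃ₗ[ℤ] V) x

lemma ev_mul (g h : OL B) (x : V) : ev (g * h) x = ev g (ev h x) := rfl

lemma ev_one (x : V) : ev (1 : OL B) x = x := rfl

lemma ol_ext {g h : OL B} (hgh : ∀ x, ev g x = ev h x) : g = h := by
  apply Subtype.ext
  apply LinearEquiv.ext
  exact hgh

/-- the reflection at a vector `r` with `B r r = 2 ε`, `ε = ±1` -/
def rf (hB : IsForm B) (r : V) (ε : ℤ) (hr : B r r = 2 * ε) (hε : ε * ε = 1) : OL B :=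
  ⟨{ toFun := fun x => x - (ε * B x r) • r
     invFun := fun x => x - (ε * B x r) • r
     left_inv := fun x => by
      have h1 : B (x - (ε * B x r) • r) r = - B x r := by
        rw [hB.sub, hB.zsmul, hr]
        linear_combination (-2 * B x r) * hε
      show x - (ε * B x r) • r - (ε * B (x - (ε * B x r) • r) r) • r = x
      rw [h1, mul_neg, neg_smul]
      abel
     right_inv := fun x => by
      have h1 : B (x - (ε * B x r) • r) r = - B x r := by
        rw [hB.sub, hB.zsmul, hr]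
        linear_combination (-2 * B x r) * hε
      show x - (ε * B x r) • r - (ε * B (x - (ε * B x r) • r) r) • r = x
      rw [h1, mul_neg, neg_smul]
      abel
     map_add' := fun x y => by
      show x + y - (ε * B (x + y) r) • r = x - (ε * B x r) • r + (y - (ε * B y r) • r)
      rw [hB.add, mul_add, add_smul]
      abel
     map_smul' := fun c x => by
      show c • x - (ε * B (c • x) r) • r = c • (x - (ε * B x r) • r)
      rw [hB.zsmul, smul_sub, smul_smul]
      congr 2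
      ring }, fun x y => by
      show B (x - (ε * B x r) • r) (y - (ε * B y r) • r) = B x y
      rw [hB.sub, hB.sub_right, hB.sub_right, hB.zsmul, hB.zsmul, hB.zsmul_right, hB.zsmul_right,
        hr, hB.symm r y]
      linear_combination (2 * ε * B x r * B y r) * hε⟩

lemma rf_apply (hB : IsForm B) (r : V) (ε : ℤ) (hr : B r r = 2 * ε) (hε : ε * ε = 1) (x : V) :
    ev (rf hB r ε hr hε) x = x - (ε * B x r) • r := rfl

/-- the rotation of order three in a plane of type `A₂` spanned by `s`, `t` -/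
def rot (hB : IsForm B) (s t : V) (ε : ℤ) (hs : B s s = 2 * ε) (ht : B t t = 2 * ε)
    (hst : B s t = - ε) (hε : ε * ε = 1) : OL B :=
  rf hB s ε hs hε * rf hB t ε ht hε

lemma rot_apply (hB : IsForm B) (s t : V) (ε : ℤ) (hs : B s s = 2 * ε) (ht : B t t = 2 * ε)
    (hst : B s t = - ε) (hε : ε * ε = 1) (x : V) :
    ev (rot hB s t ε hs ht hst hε) x =
      x - (ε * (B x s + B x t)) • s - (ε * B x t) • t := by
  have h0 : ev (rot hB s t ε hs ht hst hε) x =
    (x - (ε * B x t) • t) - (ε * B (x - (ε * B x t) • t) s) • s := rfl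
  rw [h0, hB.sub, hB.zsmul, hB.symm t s, hst]
  have e : ε * (B x s - ε * B x t * -ε) = ε * (B x s + B x t) := by
    linear_combination (ε * B x t) * hε
  rw [e]
  abel

lemma rf_sq (hB : IsForm B) (r : V) (ε : ℤ) (hr : B r r = 2 * ε) (hε : ε * ε = 1) :
    (rf hB r ε hr hε) ^ 2 = 1 := by
  rw [pow_two]
  apply ol_ext
  intro x
  exact ((rf hB r ε hr hε : OL B) : V ≃ₗ[ℤ] V).left_inv x

lemma rot_vals (hB : IsForm B) (s t : V) (ε : ℤ) (hs : B s s = 2 * ε) (ht : B t t = 2 * ε)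
    (hst : B s t = - ε) (hε : ε * ε = 1) (x : V) :
    B (ev (rot hB s t ε hs ht hst hε) x) s = - B x s - B x t ∧
    B (ev (rot hB s t ε hs ht hst hε) x) t = B x s := by
  rw [rot_apply]
  constructor
  · rw [hB.sub, hB.sub, hB.zsmul, hB.zsmul, hs, hB.symm t s, hst]
    linear_combination (- 2 * B x s - B x t) * hε
  · rw [hB.sub, hB.sub, hB.zsmul, hB.zsmul, ht, hst]
    linear_combination (B x s - B x t) * hε

lemma rot_cube (hB : IsForm B) (s t : V) (ε : ℤ) (hs : B s s = 2 * ε) (ht : B t t = 2 * ε)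
    (hst : B s t = - ε) (hε : ε * ε = 1) :
    (rot hB s t ε hs ht hst hε) ^ 3 = 1 := by
  have h3 : (rot hB s t ε hs ht hst hε) ^ 3 =
    rot hB s t ε hs ht hst hε * (rot hB s t ε hs ht hst hε * rot hB s t ε hs ht hst hε) := by
    rw [pow_succ, pow_two, mul_assoc]
  rw [h3]
  apply ol_ext
  intro x
  rw [ev_mul, ev_mul, ev_one]
  set y := ev (rot hB s t ε hs ht hst hε) x with hy
  have h1 := rot_vals hB s t ε hs ht hst hε x
  have h2 := rot_vals hB s t ε hs ht hst hε y
  rw [← hy] at h1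
  rw [rot_apply hB s t ε hs ht hst hε (ev (rot hB s t ε hs ht hst hε) y), h2.1, h2.2,
    rot_apply hB s t ε hs ht hst hε y, h1.1, h1.2, hy, rot_apply]
  module

lemma rf_fix (hB : IsForm B) (r : V) (ε : ℤ) (hr : B r r = 2 * ε) (hε : ε * ε = 1) (x : V)
    (hx : B x r = 0) : ev (rf hB r ε hr hε) x = x := by
  rw [rf_apply, hx]
  simp

lemma rf_comm (hB : IsForm B) (r s : V) (ε δ : ℤ) (hr : B r r = 2 * ε) (hε : ε * ε = 1)
    (hs : B s s = 2 * δ) (hδ : δ * δ = 1) (h : B r s = 0) :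
    Commute (rf hB r ε hr hε) (rf hB s δ hs hδ) := by
  apply ol_ext
  intro x
  rw [ev_mul, ev_mul, rf_apply, rf_apply, rf_apply, rf_apply, hB.sub, hB.sub, hB.zsmul, hB.zsmul,
    hB.symm s r, h]
  module

/-- two orthogonal planes -/
lemma rot_comm (hB : IsForm B) (s t s' t' : V) (ε δ : ℤ) (hs : B s s = 2 * ε)
    (ht : B t t = 2 * ε) (hst : B s t = - ε) (hε : ε * ε = 1) (hs' : B s' s' = 2 * δ)
    (ht' : B t' t' = 2 * δ) (hst' : B s' t' = - δ) (hδ : δ * δ = 1) (h1 : B s s' = 0)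
    (h2 : B s t' = 0) (h3 : B t s' = 0) (h4 : B t t' = 0) :
    Commute (rot hB s t ε hs ht hst hε) (rot hB s' t' δ hs' ht' hst' hδ) := by
  unfold rot
  exact ((rf_comm hB s s' ε δ hs hε hs' hδ h1).mul_right
    (rf_comm hB s t' ε δ hs hε ht' hδ h2)).mul_left
    ((rf_comm hB t s' ε δ ht hε hs' hδ h3).mul_right (rf_comm hB t t' ε δ ht hε ht' hδ h4))

/-- the stabilizer of a vector -/
def stV (B : V → V → ℤ) (v : V) : Subgroup (OL B) where
  carrier := {g | ev g v = v}
  one_mem' := rfl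
  mul_mem' := fun {g h} hg hh => by
    show ev (g * h) v = v
    rw [ev_mul, show ev h v = v from hh, show ev g v = v from hg]
  inv_mem' := fun {g} hg => by
    show ev g⁻¹ v = v
    have h1 : ev g v = v := hg
    conv_lhs => rw [← h1]
    rw [← ev_mul, inv_mul_cancel, ev_one]

/-- injectivity of the homomorphism of a product -/
lemma inj_of {ι : Type} [Fintype ι] [DecidableEq ι] {N : ι → Type} [∀ i, Group (N i)]
    (ϕ : ∀ i, N i →* OL B)
    (hcomm : Pairwise fun i j => ∀ (x : N i) (y : N j), Commute (ϕ i x) (ϕ j y)) (v : ι → V)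
    (hfix : ∀ i j x, i ≠ j → ev (ϕ i x) (v j) = v j)
    (hfree : ∀ j x, ev (ϕ j x) (v j) = v j → x = 1) :
    Function.Injective (MonoidHom.noncommPiCoprod ϕ hcomm) := by
  rw [injective_iff_map_eq_one]
  intro e he
  funext j
  apply hfree
  have h1 : e = Pi.mulSingle j (e j) * Function.update e j 1 := by
    funext i
    rw [Pi.mul_apply]
    by_cases hij : i = j
    · subst hij
      simp
    · rw [Pi.mulSingle_eq_of_ne hij, Function.update_of_ne hij, one_mul]
  rw [h1, map_mul, MonoidHom.noncommPiCoprod_mulSingle] at he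
  have h2 : MonoidHom.noncommPiCoprod ϕ hcomm (Function.update e j 1) ∈ stV B (v j) := by
    refine Subgroup.noncommProd_mem (stV B (v j)) (t := Finset.univ)
      (f := fun i => ϕ i (Function.update e j 1 i)) (fun i _ k _ hik => hcomm hik _ _) ?_
    intro i _
    show ev (ϕ i (Function.update e j 1 i)) (v j) = v j
    by_cases hij : i = j
    · subst hij
      rw [Function.update_self, map_one, ev_one]
    · exact hfix i j _ hij
  have h3 : ev (ϕ j (e j)) (v j) =
      ev (ϕ j (e j) * MonoidHom.noncommPiCoprod ϕ hcomm (Function.update e j 1)) (v j) := by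
    rw [ev_mul, show ev (MonoidHom.noncommPiCoprod ϕ hcomm (Function.update e j 1)) (v j) = v j
      from h2]
  rw [h3, he, ev_one]

end lattice

section lattice2

variable {V : Type} [AddCommGroup V] {B : V → V → ℤ}

/-- pairwise orthogonal vectors `r i` with `B (r i) (r i) = 2 ε_i`, `ε_i = ±1` -/
structure OrthRoots (B : V → V → ℤ) {ι : Type} (r : ι → V) (ε : ι → ℤ) : Prop where
  sq : ∀ i, ε i * ε i = 1
  norm : ∀ i, B (r i) (r i) = 2 * ε i
  orth : ∀ i j, i ≠ j → B (r i) (r j) = 0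

/-- pairwise orthogonal planes of type `± A₂`, with bases `s i`, `t i` -/
structure OrthPlanes (B : V → V → ℤ) {κ : Type} (s t : κ → V) (ε : κ → ℤ) : Prop where
  sq : ∀ i, ε i * ε i = 1
  ss : ∀ i, B (s i) (s i) = 2 * ε i
  tt : ∀ i, B (t i) (t i) = 2 * ε i
  st : ∀ i, B (s i) (t i) = - ε i
  oss : ∀ i j, i ≠ j → B (s i) (s j) = 0
  ost : ∀ i j, i ≠ j → B (s i) (t j) = 0
  ott : ∀ i j, i ≠ j → B (t i) (t j) = 0

/-- the values `0, 1` -/
lemma val_two (x : Multiplicative (ZMod 2)) : x.toAdd.val = 0 ∧ x = 1 ∨ x.toAdd.val = 1 := by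
  revert x
  decide

/-- the values `0, 1, 2` -/
lemma val_three (x : Multiplicative (ZMod 3)) :
    x.toAdd.val = 0 ∧ x = 1 ∨ x.toAdd.val = 1 ∨ x.toAdd.val = 2 := by
  revert x
  decide

/-- powers of commuting elements commute -/
lemma zh_comm {G : Type} [Group G] {p : ℕ} [NeZero p] {z w : G} (hz : z ^ p = 1) (hw : w ^ p = 1)
    (h : Commute z w) (x y : Multiplicative (ZMod p)) : Commute (zh z hz x) (zh w hw y) :=
  (h.pow_left _).pow_right _

/-- the stabilizer contains the powers -/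
lemma zh_fix {p : ℕ} [NeZero p] {z : OL B} (hz : z ^ p = 1) {v : V} (hv : ev z v = v)
    (x : Multiplicative (ZMod p)) : ev (zh z hz x) v = v := by
  have h1 : z ∈ stV B v := hv
  exact Subgroup.pow_mem _ h1 _

/-- the elementary abelian `2`-group generated by the reflections at orthogonal roots -/
theorem two_group (hB : IsForm B) {ι : Type} [Fintype ι] {r : ι → V} {ε : ι → ℤ}
    (h : OrthRoots B r ε) :
    ∃ φ : (ι → Multiplicative (ZMod 2)) →* OL B, Function.Injective φ := by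
  classical
  let ϕ : ∀ _ : ι, Multiplicative (ZMod 2) →* OL B := fun i =>
    zh (rf hB (r i) (ε i) (h.norm i) (h.sq i)) (rf_sq hB _ _ _ _)
  have hcomm : Pairwise fun i j => ∀ (x y : Multiplicative (ZMod 2)),
      Commute (ϕ i x) (ϕ j y) := fun i j hij x y =>
    zh_comm _ _ (rf_comm hB _ _ _ _ _ _ _ _ (h.orth i j hij)) x y
  refine ⟨MonoidHom.noncommPiCoprod ϕ hcomm, inj_of ϕ hcomm r ?_ ?_⟩
  · intro i j x hij
    exact zh_fix _ (rf_fix hB _ _ _ _ _ (h.orth j i (Ne.symm hij))) x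
  · intro j x hx
    rcases val_two x with h1 | h1
    · exact h1.2
    · exfalso
      have h2 : ev ((rf hB (r j) (ε j) (h.norm j) (h.sq j)) ^ x.toAdd.val) (r j) = r j := hx
      rw [h1, pow_one, rf_apply] at h2
      have h3 := congrArg (fun v => B v (r j)) h2
      have h4 : B (r j - (ε j * B (r j) (r j)) • r j) (r j) = B (r j) (r j) := h3
      rw [hB.sub, hB.zsmul, h.norm j] at h4
      have h5 := h.sq j
      have h6 : ε j = 0 := by
        have h7 : ε j * (ε j * ε j) = ε j := by rw [h5, mul_one]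
        nlinarith
      rw [h6] at h5
      norm_num at h5

/-- the elementary abelian `3`-group generated by the rotations of orthogonal planes -/
theorem three_group (hB : IsForm B) {κ : Type} [Fintype κ] {s t : κ → V} {ε : κ → ℤ}
    (h : OrthPlanes B s t ε) :
    ∃ φ : (κ → Multiplicative (ZMod 3)) →* OL B, Function.Injective φ := by
  classical
  let ϕ : ∀ _ : κ, Multiplicative (ZMod 3) →* OL B := fun i =>
    zh (rot hB (s i) (t i) (ε i) (h.ss i) (h.tt i) (h.st i) (h.sq i)) (rot_cube hB _ _ _ _ _ _ _)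
  have hts : ∀ i j, i ≠ j → B (t i) (s j) = 0 := fun i j hij => by
    rw [hB.symm]
    exact h.ost j i (Ne.symm hij)
  have hcomm : Pairwise fun i j => ∀ (x y : Multiplicative (ZMod 3)),
      Commute (ϕ i x) (ϕ j y) := fun i j hij x y =>
    zh_comm _ _ (rot_comm hB _ _ _ _ _ _ _ _ _ _ _ _ _ _ (h.oss i j hij) (h.ost i j hij)
      (hts i j hij) (h.ott i j hij)) x y
  refine ⟨MonoidHom.noncommPiCoprod ϕ hcomm, inj_of ϕ hcomm s ?_ ?_⟩
  · intro i j x hij
    apply zh_fix
    rw [rot_apply, h.oss j i (Ne.symm hij), h.ost j i (Ne.symm hij)]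
    simp
  · intro j x hx
    have hne : ε j ≠ 0 := by
      intro h6
      have h5 := h.sq j
      rw [h6] at h5
      norm_num at h5
    rcases val_three x with h1 | h1 | h1
    · exact h1.2
    · exfalso
      have h2 : ev ((rot hB (s j) (t j) (ε j) (h.ss j) (h.tt j) (h.st j) (h.sq j)) ^
        x.toAdd.val) (s j) = s j := hx
      rw [h1, pow_one] at h2
      have h3 := (rot_vals hB (s j) (t j) (ε j) (h.ss j) (h.tt j) (h.st j) (h.sq j) (s j)).1
      rw [h2, h.ss j, h.st j] at h3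
      apply hne
      omega
    · exfalso
      have h2 : ev ((rot hB (s j) (t j) (ε j) (h.ss j) (h.tt j) (h.st j) (h.sq j)) ^
        x.toAdd.val) (s j) = s j := hx
      rw [h1, pow_two, ev_mul] at h2
      have h3 := rot_vals hB (s j) (t j) (ε j) (h.ss j) (h.tt j) (h.st j) (h.sq j) (s j)
      have h4 := (rot_vals hB (s j) (t j) (ε j) (h.ss j) (h.tt j) (h.st j) (h.sq j)
        (ev (rot hB (s j) (t j) (ε j) (h.ss j) (h.tt j) (h.st j) (h.sq j)) (s j))).1
      rw [h2, h3.1, h3.2, h.ss j, h.st j] at h4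
      apply hne
      omega

/-- `g` is `1` or `-1` -/
def IsPM0 (g : OL B) : Prop := (∀ x, ev g x = x) ∨ (∀ x, ev g x = -x)

lemma isPM_conj {g γ : OL B} (h : IsPM0 (γ⁻¹ * g * γ)) : IsPM0 g := by
  have e : ∀ x, ev g x = ev γ (ev (γ⁻¹ * g * γ) (ev γ⁻¹ x)) := fun x => by
    rw [← ev_mul, ← ev_mul]
    congr 1
    group
  have e2 : ∀ x, ev γ (ev γ⁻¹ x) = x := fun x => by
    rw [← ev_mul, mul_inv_cancel, ev_one]
  rcases h with h | h
  · left
    intro x
    rw [e, h, e2]
  · right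
    intro x
    rw [e, h]
    have h3 : ev γ (-(ev γ⁻¹ x)) = - ev γ (ev γ⁻¹ x) := map_neg (γ : V ≃ₗ[ℤ] V) _
    rw [h3, e2]

/-- auxiliary form of `ConclusionL` below -/
def ConclusionL0 {Γ' : Subgroup (OL B)} (α : Γ' → (M ≃ₘ^∞⟮𝓘(ℝ, E), 𝓘(ℝ, E)⟯ M)) : Prop :=
  (∃ g : Γ', (∀ y, α g y = y) ∧ ¬ IsPM0 (g : OL B) ∧ (g ^ 2 = 1 ∨ g ^ 3 = 1)) ∧
  ((∀ N : Subgroup Γ', N.Normal → (∀ g ∈ N, IsPM0 (g : OL B)) ∨ Finite (Γ' ⧸ N)) →
    (Set.range α).Finite)

/-- `2 ^ l` does not divide `2 ^ (m + 1) χ N`, or `3 ^ k` does not divide `3 ^ ⌊m / 2⌋ χ N` -/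
def CondL (l k m N : ℕ) (χ : ℤ) : Prop :=
  ¬ ((2 : ℤ) ^ l ∣ (2 : ℤ) ^ (m + 1) * χ * N) ∨ CondP 3 k m N χ

lemma concl_of {Γ' : Subgroup (OL B)} {α : Γ' → (M ≃ₘ^∞⟮𝓘(ℝ, E), 𝓘(ℝ, E)⟯ M)} (hα : IsHom α)
    (g : Γ') (hg : g ∈ actKer hα.action) (h1 : ¬ IsPM0 (g : OL B)) (h2 : g ^ 2 = 1 ∨ g ^ 3 = 1) :
    ConclusionL0 α := by
  refine ⟨⟨g, hg, h1, h2⟩, fun hNS => hα.finite_range ?_⟩
  rcases hNS (actKer hα.action) inferInstance with h3 | h3
  · exact absurd (h3 g hg) h1
  · exact h3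

theorem lattice_main [CompactSpace M] [T2Space M] [ConnectedSpace M] (hB : IsForm B)
    {ι κ : Type} [Fintype ι] [Fintype κ] {r : ι → V} {ε : ι → ℤ} (hr : OrthRoots B r ε)
    {s t : κ → V} {δ : κ → ℤ} (hst : OrthPlanes B s t δ) (Γ' : Subgroup (OL B))
    (hfin : Finite (OL B ⧸ Γ')) {α : Γ' → (M ≃ₘ^∞⟮𝓘(ℝ, E), 𝓘(ℝ, E)⟯ M)} (hα : IsHom α)
    (h : CondL (Fintype.card ι) (Fintype.card κ) (finrank ℝ E) Γ'.index
      (Pool.Agent.Helper381.eulerChar M)) : ConclusionL0 α := by
  classical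
  rcases h with h | h
  · obtain ⟨φ, hφ⟩ := two_group hB hr
    have hcard : Nat.card (ι → Multiplicative (ZMod 2)) = 2 ^ Fintype.card ι := by
      rw [Nat.card_fun]
      simp
    have hx2 : ∀ x : ι → Multiplicative (ZMod 2), x ^ 2 = 1 := fun x => by
      funext i
      exact mult_pow _
    obtain ⟨x, γ, hx, hx1, hker⟩ := fi_four_gen Γ' (P := ι → Multiplicative (ZMod 2))
      (fun x => by rw [show (4 : ℕ) = 2 * 2 from rfl, pow_mul, hx2]) φ
      (fun x => IsPM0 (φ x)) 2 (fun K hK => by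
        have hle : Nat.card K ≤ 2 := by
          have hinj : Function.Injective (fun k : K => (decide (∀ x, ev (φ k) x = x) : Bool)) := by
            intro k k' hkk
            apply Subtype.ext
            apply hφ
            have h1 : (∀ x, ev (φ k) x = x) ↔ (∀ x, ev (φ k') x = x) := by
              simpa using hkk
            apply ol_ext
            intro y
            by_cases h2 : ∀ x, ev (φ k) x = x
            · rw [h2 y, h1.1 h2 y]
            · have h3 := (hK k k.2).resolve_left h2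
              have h4 := (hK k' k'.2).resolve_left (fun h5 => h2 (h1.2 h5))
              rw [h3 y, h4 y]
          have := Nat.card_le_card_of_injective _ hinj
          simpa using this
        have hpos : 0 < Nat.card K := Nat.card_pos
        interval_cases hK : Nat.card K
        · norm_num
        · norm_num) hα.action (by
      rw [hcard]
      intro h2
      apply h
      have e : ((2 : ℕ) : ℤ) * (((2 ^ finrank ℝ E : ℕ) : ℤ) * Pool.Agent.Helper381.eulerChar M) *
          Γ'.index = 2 ^ (finrank ℝ E + 1) * Pool.Agent.Helper381.eulerChar M * Γ'.index := by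
        push_cast
        ring
      rw [e] at h2
      exact_mod_cast h2)
    refine concl_of hα _ hker (fun h1 => hx1 (isPM_conj h1)) (Or.inl ?_)
    apply Subtype.ext
    show (γ⁻¹ * φ x * γ) ^ 2 = 1
    have h2 : (γ⁻¹ * φ x * γ) ^ 2 = γ⁻¹ * (φ x) ^ 2 * γ := by
      have := conj_pow (i := 2) (a := γ⁻¹) (b := φ x)
      rw [inv_inv] at this
      exact this
    rw [h2, ← map_pow, hx2, map_one]
    group
  · obtain ⟨φ, hφ⟩ := three_group hB hst
    obtain ⟨⟨g, γ, x, hg, hg1, hgx⟩, -⟩ := general (E := E) (M := M) Nat.prime_three (by norm_num)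
      (OL B) Γ' κ φ inferInstance hφ α hα h
    have hx1 : x ≠ 1 := by
      intro h1
      apply hg1
      apply Subtype.ext
      show (g : OL B) = 1
      have h2 : (g : OL B) = γ⁻¹ * (γ * (g : OL B) * γ⁻¹) * γ := by group
      rw [h2, hgx, h1, map_one]
      group
    have hg3 : g ^ 3 = 1 := by
      apply Subtype.ext
      show (g : OL B) ^ 3 = 1
      have h1 : (g : OL B) = γ⁻¹ * φ x * (γ⁻¹)⁻¹ := by rw [← hgx]; group
      rw [h1, conj_pow, ← map_pow]
      have h3 : x ^ 3 = 1 := by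
        funext i
        exact mult_pow _
      rw [h3, map_one]
      group
    refine concl_of hα g hg (fun h1 => ?_) (Or.inr hg3)
    rcases h1 with h1 | h1
    · apply hg1
      apply Subtype.ext
      exact ol_ext h1
    · have hj : ∃ j, x j ≠ 1 := by
        by_contra hcon
        push Not at hcon
        exact hx1 (funext hcon)
      obtain ⟨j, -⟩ := hj
      have h4 : ev ((g : OL B) ^ 3) (s j) = s j := by
        have h5 : (g : OL B) ^ 3 = 1 := congrArg Subtype.val hg3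
        rw [h5, ev_one]
      have h5 : ev ((g : OL B) ^ 3) (s j) = - s j := by
        rw [pow_succ, pow_two, ev_mul, ev_mul, h1, h1, h1]
        simp
      rw [h4] at h5
      have h6 := congrArg (fun v => B v (s j)) h5
      have h7 : B (s j) (s j) = B (- s j) (s j) := h6
      rw [hB.neg, hst.ss j] at h7
      have h8 := hst.sq j
      have h9 : δ j = 0 := by omega
      rw [h9] at h8
      norm_num at h8

end lattice2

/-! ### Even unimodular lattices -/

/-- the Cartan matrix of `E₈` -/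
def cartan : Matrix (Fin 8) (Fin 8) ℤ :=
  !![2, 0, -1, 0, 0, 0, 0, 0;
     0, 2, 0, -1, 0, 0, 0, 0;
     -1, 0, 2, -1, 0, 0, 0, 0;
     0, -1, -1, 2, -1, 0, 0, 0;
     0, 0, 0, -1, 2, -1, 0, 0;
     0, 0, 0, 0, -1, 2, -1, 0;
     0, 0, 0, 0, 0, -1, 2, -1;
     0, 0, 0, 0, 0, 0, -1, 2]

/-- the lattice `ℤ^(8 a) ⊕ ℤ^(2 b)` -/
abbrev EU0 (a b : ℕ) : Type := (Fin a → Fin 8 → ℤ) × (Fin b → Fin 2 → ℤ)

/-- the form of `E₈` -/
def fE (v w : Fin 8 → ℤ) : ℤ := ∑ j, ∑ k, cartan j k * v j * w k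

/-- the form of the hyperbolic plane -/
def fU (v w : Fin 2 → ℤ) : ℤ := v 0 * w 1 + v 1 * w 0

/-- the form of `E₈^a ⊕ U^b` -/
def formEU0 (a b : ℕ) (x y : EU0 a b) : ℤ := ∑ i, fE (x.1 i) (y.1 i) + ∑ i, fU (x.2 i) (y.2 i)

lemma fE_add (x y z : Fin 8 → ℤ) : fE (x + y) z = fE x z + fE y z := by
  unfold fE
  rw [← Finset.sum_add_distrib]
  refine Finset.sum_congr rfl (fun j _ => ?_)
  rw [← Finset.sum_add_distrib]
  refine Finset.sum_congr rfl (fun k _ => ?_)
  rw [Pi.add_apply]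
  ring

lemma cartan_symm (j k : Fin 8) : cartan j k = cartan k j := by
  fin_cases j <;> fin_cases k <;> rfl

lemma fE_symm (x y : Fin 8 → ℤ) : fE x y = fE y x := by
  unfold fE
  rw [Finset.sum_comm]
  refine Finset.sum_congr rfl (fun j _ => Finset.sum_congr rfl (fun k _ => ?_))
  rw [cartan_symm k j]
  ring

lemma fE_zero (x : Fin 8 → ℤ) : fE x 0 = 0 := by
  unfold fE
  simp

lemma fE_zero' (x : Fin 8 → ℤ) : fE 0 x = 0 := by
  rw [fE_symm, fE_zero]

lemma fU_zero (x : Fin 2 → ℤ) : fU x 0 = 0 := by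
  simp [fU]

lemma fU_zero' (x : Fin 2 → ℤ) : fU 0 x = 0 := by
  simp [fU]

theorem isForm_EU0 (a b : ℕ) : IsForm (formEU0 a b) where
  add x y z := by
    unfold formEU0
    have h1 : ∀ i, fE ((x + y).1 i) (z.1 i) = fE (x.1 i) (z.1 i) + fE (y.1 i) (z.1 i) :=
      fun i => fE_add _ _ _
    have h2 : ∀ i, fU ((x + y).2 i) (z.2 i) = fU (x.2 i) (z.2 i) + fU (y.2 i) (z.2 i) := fun i => by
      show (x.2 i 0 + y.2 i 0) * z.2 i 1 + (x.2 i 1 + y.2 i 1) * z.2 i 0 = _
      unfold fU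
      ring
    rw [Finset.sum_congr rfl (fun i _ => h1 i), Finset.sum_congr rfl (fun i _ => h2 i),
      Finset.sum_add_distrib, Finset.sum_add_distrib]
    ring
  symm x y := by
    unfold formEU0
    congr 1
    · exact Finset.sum_congr rfl (fun i _ => fE_symm _ _)
    · refine Finset.sum_congr rfl (fun i _ => ?_)
      unfold fU
      ring

/-- eight pairwise orthogonal roots of `E₈` -/
def rE : Fin 8 → Fin 8 → ℤ :=
  ![![0, 0, 0, 0, 0, 0, 0, 1], ![0, 0, 0, 0, 0, 1, 0, 0], ![0, 0, 0, 1, 0, 0, 0, 0],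
    ![1, 0, 0, 0, 0, 0, 0, 0], ![1, 2, 2, 3, 2, 1, 0, 0], ![1, 2, 2, 3, 2, 2, 2, 1],
    ![1, 2, 2, 4, 4, 3, 2, 1], ![2, 2, 4, 5, 4, 3, 2, 1]]

/-- first roots of four pairwise orthogonal planes of type `A₂` in `E₈` -/
def sE : Fin 4 → Fin 8 → ℤ :=
  ![![1, 0, 0, 0, 0, 0, 0, 0], ![0, 1, 0, 0, 0, 0, 0, 0], ![0, 0, 0, 0, 1, 0, 0, 0],
    ![0, 0, 0, 0, 0, 0, 0, 1]]

/-- second roots of four pairwise orthogonal planes of type `A₂` in `E₈` -/
def tE : Fin 4 → Fin 8 → ℤ :=
  ![![0, 0, 1, 0, 0, 0, 0, 0], ![1, 1, 2, 3, 2, 1, 0, 0], ![0, 0, 0, 0, 0, 1, 0, 0],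
    ![2, 3, 4, 6, 5, 4, 3, 1]]

lemma rE_form (i j : Fin 8) : fE (rE i) (rE j) = if i = j then 2 else 0 := by
  revert i j
  decide +kernel

lemma sE_form (i j : Fin 4) : fE (sE i) (sE j) = if i = j then 2 else 0 := by
  revert i j
  decide +kernel

lemma tE_form (i j : Fin 4) : fE (tE i) (tE j) = if i = j then 2 else 0 := by
  revert i j
  decide +kernel

lemma st_form (i j : Fin 4) : fE (sE i) (tE j) = if i = j then -1 else 0 := by
  revert i j
  decide +kernel

/-- a vector in one summand `E₈` -/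
def vE {a b : ℕ} (i : Fin a) (v : Fin 8 → ℤ) : EU0 a b := (Pi.single i v, 0)

/-- a vector in one summand `U` -/
def vU {a b : ℕ} (i : Fin b) (v : Fin 2 → ℤ) : EU0 a b := (0, Pi.single i v)

lemma vE_vE {a b : ℕ} (i i' : Fin a) (v v' : Fin 8 → ℤ) :
    formEU0 a b (vE i v) (vE i' v') = if i = i' then fE v v' else 0 := by
  show ∑ j, fE ((Pi.single i v : Fin a → Fin 8 → ℤ) j) ((Pi.single i' v' : Fin a → Fin 8 → ℤ) j) +
    ∑ j : Fin b, fU ((0 : Fin b → Fin 2 → ℤ) j) ((0 : Fin b → Fin 2 → ℤ) j) = _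
  have h1 : ∑ j : Fin b, fU ((0 : Fin b → Fin 2 → ℤ) j) ((0 : Fin b → Fin 2 → ℤ) j) = 0 :=
    Finset.sum_eq_zero (fun j _ => fU_zero _)
  rw [h1, add_zero]
  split_ifs with h
  · subst h
    rw [Finset.sum_eq_single i]
    · rw [Pi.single_eq_same, Pi.single_eq_same]
    · intro j _ hj
      rw [Pi.single_eq_of_ne hj, fE_zero']
    · intro h
      exact absurd (Finset.mem_univ _) h
  · refine Finset.sum_eq_zero (fun j _ => ?_)
    by_cases hj : j = i
    · subst hj
      rw [Pi.single_eq_of_ne h, fE_zero]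
    · rw [Pi.single_eq_of_ne hj, fE_zero']

lemma vU_vU {a b : ℕ} (i i' : Fin b) (v v' : Fin 2 → ℤ) :
    formEU0 a b (vU i v) (vU i' v') = if i = i' then fU v v' else 0 := by
  show ∑ j : Fin a, fE ((0 : Fin a → Fin 8 → ℤ) j) ((0 : Fin a → Fin 8 → ℤ) j) +
    ∑ j, fU ((Pi.single i v : Fin b → Fin 2 → ℤ) j) ((Pi.single i' v' : Fin b → Fin 2 → ℤ) j) = _
  have h1 : ∑ j : Fin a, fE ((0 : Fin a → Fin 8 → ℤ) j) ((0 : Fin a → Fin 8 → ℤ) j) = 0 :=
    Finset.sum_eq_zero (fun j _ => fE_zero _)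
  rw [h1, zero_add]
  split_ifs with h
  · subst h
    rw [Finset.sum_eq_single i]
    · rw [Pi.single_eq_same, Pi.single_eq_same]
    · intro j _ hj
      rw [Pi.single_eq_of_ne hj, fU_zero']
    · intro h
      exact absurd (Finset.mem_univ _) h
  · refine Finset.sum_eq_zero (fun j _ => ?_)
    by_cases hj : j = i
    · subst hj
      rw [Pi.single_eq_of_ne h, fU_zero]
    · rw [Pi.single_eq_of_ne hj, fU_zero']

lemma vE_vU {a b : ℕ} (i : Fin a) (i' : Fin b) (v : Fin 8 → ℤ) (v' : Fin 2 → ℤ) :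
    formEU0 a b (vE i v) (vU i' v') = 0 := by
  show ∑ j : Fin a, fE ((Pi.single i v : Fin a → Fin 8 → ℤ) j) ((0 : Fin a → Fin 8 → ℤ) j) +
    ∑ j : Fin b, fU ((0 : Fin b → Fin 2 → ℤ) j) ((Pi.single i' v' : Fin b → Fin 2 → ℤ) j) = 0
  have h1 : ∑ j : Fin b, fU ((0 : Fin b → Fin 2 → ℤ) j) ((Pi.single i' v' : Fin b → Fin 2 → ℤ) j) =
      0 := Finset.sum_eq_zero (fun j _ => fU_zero' _)
  have h2 : ∑ j : Fin a, fE ((Pi.single i v : Fin a → Fin 8 → ℤ) j) ((0 : Fin a → Fin 8 → ℤ) j) =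
      0 := Finset.sum_eq_zero (fun j _ => fE_zero _)
  rw [h1, h2, add_zero]

/-- two orthogonal vectors of norm `2`, `-2` in `U` -/
def rU : Fin 2 → Fin 2 → ℤ := ![![1, 1], ![1, -1]]

/-- the orthogonal roots of `E₈^a ⊕ U^b` -/
def rEU (a b : ℕ) : (Fin a × Fin 8) ⊕ (Fin b × Fin 2) → EU0 a b
  | Sum.inl (i, j) => vE i (rE j)
  | Sum.inr (i, j) => vU i (rU j)

/-- their signs -/
def eEU (a b : ℕ) : (Fin a × Fin 8) ⊕ (Fin b × Fin 2) → ℤ
  | Sum.inl _ => 1
  | Sum.inr (_, j) => ![1, -1] j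

theorem roots_EU (a b : ℕ) : OrthRoots (formEU0 a b) (rEU a b) (eEU a b) where
  sq := by
    rintro (⟨i, j⟩ | ⟨i, j⟩)
    · rfl
    · fin_cases j <;> rfl
  norm := by
    rintro (⟨i, j⟩ | ⟨i, j⟩)
    · show formEU0 a b (vE i (rE j)) (vE i (rE j)) = 2 * 1
      rw [vE_vE, if_pos rfl, rE_form, if_pos rfl]
      norm_num
    · show formEU0 a b (vU i (rU j)) (vU i (rU j)) = 2 * ![1, -1] j
      rw [vU_vU, if_pos rfl]
      fin_cases j <;> rfl
  orth := by
    rintro (⟨i, j⟩ | ⟨i, j⟩) (⟨i', j'⟩ | ⟨i', j'⟩) h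
    · show formEU0 a b (vE i (rE j)) (vE i' (rE j')) = 0
      rw [vE_vE]
      split_ifs with h1
      · rw [rE_form, if_neg]
        intro h2
        exact h (by rw [h1, h2])
      · rfl
    · exact vE_vU _ _ _ _
    · rw [(isForm_EU0 a b).symm]
      exact vE_vU _ _ _ _
    · show formEU0 a b (vU i (rU j)) (vU i' (rU j')) = 0
      rw [vU_vU]
      split_ifs with h1
      · have h2 : j ≠ j' := fun h2 => h (by rw [h1, h2])
        fin_cases j <;> fin_cases j' <;> first | rfl | exact absurd rfl h2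
      · rfl

/-- the places `2 c`, `2 c + 1` -/
def pl {b : ℕ} (c : Fin (b / 2)) (u : Fin 2) : Fin b := ⟨2 * c.1 + u.1, by
  have := c.2
  have := u.2
  omega⟩

lemma pl_inj {b : ℕ} {c c' : Fin (b / 2)} {u u' : Fin 2} (h : pl c u = pl c' u') :
    c = c' ∧ u = u' := by
  have h1 : 2 * c.1 + u.1 = 2 * c'.1 + u'.1 := congrArg Fin.val h
  have := u.2
  have := u'.2
  exact ⟨Fin.ext (by omega), Fin.ext (by omega)⟩

/-- a vector in two summands `U` -/
def vW {a b : ℕ} (c : Fin (b / 2)) (v : Fin 2 → Fin 2 → ℤ) : EU0 a b :=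
  vU (pl c 0) (v 0) + vU (pl c 1) (v 1)

/-- the form of `U ⊕ U` -/
def fW (v w : Fin 2 → Fin 2 → ℤ) : ℤ := fU (v 0) (w 0) + fU (v 1) (w 1)

lemma vW_vW {a b : ℕ} (c c' : Fin (b / 2)) (v v' : Fin 2 → Fin 2 → ℤ) :
    formEU0 a b (vW c v) (vW c' v') = if c = c' then fW v v' else 0 := by
  have hB := isForm_EU0 a b
  have hadd : ∀ x y z, formEU0 a b x (y + z) = formEU0 a b x y + formEU0 a b x z := fun x y z => by
    rw [hB.symm, hB.add, hB.symm y, hB.symm z]
  unfold vW
  rw [hB.add, hadd, hadd, vU_vU, vU_vU, vU_vU, vU_vU]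
  have h01 : pl c 0 ≠ pl c' 1 := fun h => by
    have := (pl_inj h).2
    revert this
    decide
  have h10 : pl c 1 ≠ pl c' 0 := fun h => by
    have := (pl_inj h).2
    revert this
    decide
  rw [if_neg h01, if_neg h10]
  by_cases h : c = c'
  · subst h
    rw [if_pos rfl, if_pos rfl, if_pos rfl]
    unfold fW
    ring
  · rw [if_neg (fun h2 => h (pl_inj h2).1), if_neg (fun h2 => h (pl_inj h2).1), if_neg h]
    ring

lemma vE_vW {a b : ℕ} (i : Fin a) (c : Fin (b / 2)) (v : Fin 8 → ℤ) (v' : Fin 2 → Fin 2 → ℤ) :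
    formEU0 a b (vE i v) (vW c v') = 0 := by
  have hB := isForm_EU0 a b
  unfold vW
  rw [hB.symm, hB.add, hB.symm _ (vE i v), hB.symm _ (vE i v), vE_vU, vE_vU, add_zero]

/-- first vectors of the planes `A₂` and `- A₂` in `U ⊕ U` -/
def sW : Fin 2 → Fin 2 → Fin 2 → ℤ := ![![![1, 1], ![0, 0]], ![![-1, 1], ![1, 0]]]

/-- second vectors -/
def tW : Fin 2 → Fin 2 → Fin 2 → ℤ := ![![![-1, 0], ![1, 1]], ![![1, -1], ![0, -1]]]

/-- first vectors of the planes in `E₈^a ⊕ U^b` -/
def sEU (a b : ℕ) : (Fin a × Fin 4) ⊕ (Fin (b / 2) × Fin 2) → EU0 a b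
  | Sum.inl (i, j) => vE i (sE j)
  | Sum.inr (i, j) => vW i (sW j)

/-- second vectors of the planes in `E₈^a ⊕ U^b` -/
def tEU (a b : ℕ) : (Fin a × Fin 4) ⊕ (Fin (b / 2) × Fin 2) → EU0 a b
  | Sum.inl (i, j) => vE i (tE j)
  | Sum.inr (i, j) => vW i (tW j)

/-- their signs -/
def dEU (a b : ℕ) : (Fin a × Fin 4) ⊕ (Fin (b / 2) × Fin 2) → ℤ
  | Sum.inl _ => 1
  | Sum.inr (_, j) => ![1, -1] j

theorem planes_EU (a b : ℕ) : OrthPlanes (formEU0 a b) (sEU a b) (tEU a b) (dEU a b) where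
  sq := by
    rintro (⟨i, j⟩ | ⟨i, j⟩)
    · rfl
    · fin_cases j <;> rfl
  ss := by
    rintro (⟨i, j⟩ | ⟨i, j⟩)
    · show formEU0 a b (vE i (sE j)) (vE i (sE j)) = 2 * 1
      rw [vE_vE, if_pos rfl, sE_form, if_pos rfl]
      norm_num
    · show formEU0 a b (vW i (sW j)) (vW i (sW j)) = 2 * ![1, -1] j
      rw [vW_vW, if_pos rfl]
      fin_cases j <;> rfl
  tt := by
    rintro (⟨i, j⟩ | ⟨i, j⟩)
    · show formEU0 a b (vE i (tE j)) (vE i (tE j)) = 2 * 1
      rw [vE_vE, if_pos rfl, tE_form, if_pos rfl]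
      norm_num
    · show formEU0 a b (vW i (tW j)) (vW i (tW j)) = 2 * ![1, -1] j
      rw [vW_vW, if_pos rfl]
      fin_cases j <;> rfl
  st := by
    rintro (⟨i, j⟩ | ⟨i, j⟩)
    · show formEU0 a b (vE i (sE j)) (vE i (tE j)) = - 1
      rw [vE_vE, if_pos rfl, st_form, if_pos rfl]
    · show formEU0 a b (vW i (sW j)) (vW i (tW j)) = - ![1, -1] j
      rw [vW_vW, if_pos rfl]
      fin_cases j <;> rfl
  oss := by
    rintro (⟨i, j⟩ | ⟨i, j⟩) (⟨i', j'⟩ | ⟨i', j'⟩) h
    · show formEU0 a b (vE i (sE j)) (vE i' (sE j')) = 0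
      rw [vE_vE]
      split_ifs with h1
      · rw [sE_form, if_neg]
        intro h2
        exact h (by rw [h1, h2])
      · rfl
    · exact vE_vW _ _ _ _
    · rw [(isForm_EU0 a b).symm]
      exact vE_vW _ _ _ _
    · show formEU0 a b (vW i (sW j)) (vW i' (sW j')) = 0
      rw [vW_vW]
      split_ifs with h1
      · have h2 : j ≠ j' := fun h2 => h (by rw [h1, h2])
        fin_cases j <;> fin_cases j' <;> first | rfl | exact absurd rfl h2
      · rfl
  ost := by
    rintro (⟨i, j⟩ | ⟨i, j⟩) (⟨i', j'⟩ | ⟨i', j'⟩) h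
    · show formEU0 a b (vE i (sE j)) (vE i' (tE j')) = 0
      rw [vE_vE]
      split_ifs with h1
      · rw [st_form, if_neg]
        intro h2
        exact h (by rw [h1, h2])
      · rfl
    · exact vE_vW _ _ _ _
    · rw [(isForm_EU0 a b).symm]
      exact vE_vW _ _ _ _
    · show formEU0 a b (vW i (sW j)) (vW i' (tW j')) = 0
      rw [vW_vW]
      split_ifs with h1
      · have h2 : j ≠ j' := fun h2 => h (by rw [h1, h2])
        fin_cases j <;> fin_cases j' <;> first | rfl | exact absurd rfl h2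
      · rfl
  ott := by
    rintro (⟨i, j⟩ | ⟨i, j⟩) (⟨i', j'⟩ | ⟨i', j'⟩) h
    · show formEU0 a b (vE i (tE j)) (vE i' (tE j')) = 0
      rw [vE_vE]
      split_ifs with h1
      · rw [tE_form, if_neg]
        intro h2
        exact h (by rw [h1, h2])
      · rfl
    · exact vE_vW _ _ _ _
    · rw [(isForm_EU0 a b).symm]
      exact vE_vW _ _ _ _
    · show formEU0 a b (vW i (tW j)) (vW i' (tW j')) = 0
      rw [vW_vW]
      split_ifs with h1
      · have h2 : j ≠ j' := fun h2 => h (by rw [h1, h2])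
        fin_cases j <;> fin_cases j' <;> first | rfl | exact absurd rfl h2
      · rfl

theorem condL_of {a b m N : ℕ} {χ : ℤ} (hm : Even m) (h : m < 8 * a + 2 * b - 2)
    (hχ : ¬ (24 : ℤ) ∣ χ * N) : CondL (a * 8 + b * 2) (a * 4 + b / 2 * 2) m N χ := by
  by_cases h3 : (3 : ℤ) ∣ χ * N
  · left
    rw [mul_assoc]
    intro hdvd
    have h1 : (2 : ℤ) ^ (a * 8 + b * 2) = 2 ^ (m + 1) * 2 ^ (a * 8 + b * 2 - (m + 1)) := by
      rw [← pow_add]
      congr 1
      omega
    rw [h1] at hdvd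
    have h5 := Int.dvd_of_mul_dvd_mul_left (by positivity) hdvd
    obtain ⟨c, hc⟩ := hm
    have h6 : (2 : ℤ) ^ 3 ∣ χ * N := (pow_dvd_pow 2 (by omega)).trans h5
    apply hχ
    have h7 : IsCoprime (3 : ℤ) (2 ^ 3) := by
      rw [Int.isCoprime_iff_gcd_eq_one]
      rfl
    have h8 := h7.mul_dvd h3 h6
    rwa [show (3 : ℤ) * 2 ^ 3 = 24 by norm_num] at h8
  · right
    apply condP_of Nat.prime_three (by exact_mod_cast h3)
    obtain ⟨c, hc⟩ := hm
    omega

/-! ### The statements -/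

/-- the unitary group of `∑ x_i* a_i x_i`, as a type -/
def UG {O : Type} [Ring O] [StarRing O] {n : ℕ} (a : Fin n → O) : Type := UH a

instance {O : Type} [Ring O] [StarRing O] {n : ℕ} (a : Fin n → O) : Group (UG a) :=
  inferInstanceAs (Group (UH a))

/-- the matrix of an element of the unitary group -/
def UG.mat {O : Type} [Ring O] [StarRing O] {n : ℕ} {a : Fin n → O} (g : UG a) :
    Matrix (Fin n) (Fin n) O := um (show UH a from g)

/-- Every normal subgroup of `Γ'` is contained in `{1, -1}` or has finite index. -/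
def NSU {O : Type} [Ring O] [StarRing O] {n : ℕ} {a : Fin n → O} (Γ' : Subgroup (UG a)) : Prop :=
  ∀ N : Subgroup Γ', N.Normal → (∀ g ∈ N, UG.mat (g : UG a) = 1 ∨ UG.mat (g : UG a) = -1) ∨
    Finite (Γ' ⧸ N)

/-- The conclusion: the kernel of `α` contains an element of order `p`, conjugate in the unitary
group to a diagonal matrix with entries powers of the `u i`, and the image is finite under property
`(NSU)`. -/
def ConclusionU {O : Type} [Ring O] [StarRing O] {n : ℕ} {a : Fin n → O} (p : ℕ) (u : Fin n → O)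
    {Γ' : Subgroup (UG a)} (α : Γ' → (M ≃ₘ^∞⟮𝓘(ℝ, E), 𝓘(ℝ, E)⟯ M)) : Prop :=
  (∃ (g : Γ') (γ : UG a) (e : Fin n → ℕ), (∀ x, α g x = x) ∧ g ≠ 1 ∧ g ^ p = 1 ∧
    UG.mat (γ * (g : UG a) * γ⁻¹) = diagonal (fun i => u i ^ e i)) ∧
  (NSU Γ' → (Set.range α).Finite)

/-- the orthogonal group of the lattice `(V, B)`, as a type -/
def OG {V : Type} [AddCommGroup V] (B : V → V → ℤ) : Type := OL B

instance {V : Type} [AddCommGroup V] (B : V → V → ℤ) : Group (OG B) :=
  inferInstanceAs (Group (OL B))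

/-- the value of an isometry at a vector -/
def OG.ev {V : Type} [AddCommGroup V] {B : V → V → ℤ} (g : OG B) (x : V) : V :=
  OrthogonalLatticesH93.ev (show OL B from g) x

/-- `g` is `1` or `-1` -/
def IsPM {V : Type} [AddCommGroup V] {B : V → V → ℤ} (g : OG B) : Prop :=
  (∀ x, OG.ev g x = x) ∨ (∀ x, OG.ev g x = -x)

/-- The conclusion for lattices: the kernel of `α` contains an element of order `2` or `3` different
from `-1`, and the image of `α` is finite if every normal subgroup of `Γ'` is contained in `{1, -1}`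
or has finite index. -/
def ConclusionL {V : Type} [AddCommGroup V] {B : V → V → ℤ} {Γ' : Subgroup (OG B)}
    (α : Γ' → (M ≃ₘ^∞⟮𝓘(ℝ, E), 𝓘(ℝ, E)⟯ M)) : Prop :=
  (∃ g : Γ', (∀ y, α g y = y) ∧ ¬ IsPM (g : OG B) ∧ (g ^ 2 = 1 ∨ g ^ 3 = 1)) ∧
  ((∀ N : Subgroup Γ', N.Normal → (∀ g ∈ N, IsPM (g : OG B)) ∨ Finite (Γ' ⧸ N)) →
    (Set.range α).Finite)

/-- the lattice `ℤ^(8 a) ⊕ ℤ^(2 b)` -/
def EU (a b : ℕ) : Type := (Fin a → Fin 8 → ℤ) × (Fin b → Fin 2 → ℤ)

instance (a b : ℕ) : AddCommGroup (EU a b) :=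
  inferInstanceAs (AddCommGroup ((Fin a → Fin 8 → ℤ) × (Fin b → Fin 2 → ℤ)))

/-- the form of `E₈^a ⊕ U^b` -/
def formEU (a b : ℕ) (x y : EU a b) : ℤ := ∑ i, fE (x.1 i) (y.1 i) + ∑ i, fU (x.2 i) (y.2 i)

variable (E M) in
/-- Statement (2), unitary groups over the prime `p`. -/
def StatementU (p : ℕ) : Prop :=
  ∀ (O : Type) [Ring O] [StarRing O] (n : ℕ) (a u : Fin n → O) (J : Finset (Fin n)),
    (∀ i ∈ J, u i ≠ 1) → (∀ i, u i ^ p = 1) → (∀ i, star (u i) * a i * u i = a i) →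
    ∀ Γ' : Subgroup (UG a), Finite (UG a ⧸ Γ') →
    ∀ α : Γ' → (M ≃ₘ^∞⟮𝓘(ℝ, E), 𝓘(ℝ, E)⟯ M), IsHom α →
    CondP p J.card (finrank ℝ E) Γ'.index (Pool.Agent.Helper381.eulerChar M) →
    ConclusionU p u α

variable (E M) in
/-- Statement (3), groups of forms with blocks `c_i (x² + t x y + y²)`, `i ∈ J`, and arbitrary binary
blocks `b_i`, `i ∉ J`; `t = ζ + ζ⁻¹`. -/
def StatementB (p : ℕ) : Prop :=
  ∀ (R S : Type) [CommRing R] [StarRing R] [CommRing S] [IsDomain S] (f : R →+* S),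
    Function.Injective f → ∀ ζ ζ' : S, ζ * ζ' = 1 → ζ ^ p = 1 → ζ ≠ 1 →
    ∀ t : R, star t = t → f t = ζ + ζ' →
    ∀ (n : ℕ) (c : Fin n → R) (b : Fin n → Matrix (Fin 2) (Fin 2) R) (J : Finset (Fin n)),
    ∀ Γ' : Subgroup (UG (fun i => if i ∈ J then frm (c i) t else b i)),
    Finite (UG (fun i => if i ∈ J then frm (c i) t else b i) ⧸ Γ') →
    ∀ α : Γ' → (M ≃ₘ^∞⟮𝓘(ℝ, E), 𝓘(ℝ, E)⟯ M), IsHom α →
    CondP p J.card (finrank ℝ E) Γ'.index (Pool.Agent.Helper381.eulerChar M) →
    ConclusionU p (fun i => if i ∈ J then comp t else 1) α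

variable (E M) in
/-- Statement (5), lattices with orthogonal roots `r i` and orthogonal planes `s j`, `t j` of type
`± A₂`. -/
def StatementL : Prop :=
  ∀ (V : Type) [AddCommGroup V] (B : V → V → ℤ), IsForm B →
    ∀ (ι κ : Type) [Fintype ι] [Fintype κ] (r : ι → V) (ε : ι → ℤ) (s t : κ → V) (δ : κ → ℤ),
    OrthRoots B r ε → OrthPlanes B s t δ →
    ∀ Γ' : Subgroup (OG B), Finite (OG B ⧸ Γ') →
    ∀ α : Γ' → (M ≃ₘ^∞⟮𝓘(ℝ, E), 𝓘(ℝ, E)⟯ M), IsHom α →
    CondL (Fintype.card ι) (Fintype.card κ) (finrank ℝ E) Γ'.index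
      (Pool.Agent.Helper381.eulerChar M) → ConclusionL α

variable (E M) in
/-- Statement (6), the even unimodular lattices `E₈^a ⊕ U^b`. -/
def StatementE : Prop :=
  ∀ (a b : ℕ) (Γ' : Subgroup (OG (formEU a b))), Finite (OG (formEU a b) ⧸ Γ') →
    ∀ α : Γ' → (M ≃ₘ^∞⟮𝓘(ℝ, E), 𝓘(ℝ, E)⟯ M), IsHom α →
    Even (finrank ℝ E) → finrank ℝ E < 8 * a + 2 * b - 2 →
    ¬ (24 : ℤ) ∣ Pool.Agent.Helper381.eulerChar M * Γ'.index → ConclusionL α

/-- **Actions of lattices in orthogonal groups on manifolds of nonzero Euler characteristic.**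
`M` is a closed connected manifold of dimension `m = finrank ℝ E`, `p` an odd prime.
(1) `Γ` is any group which contains an elementary abelian `p`-group of rank `k`, `Γ'` is a subgroup of
finite index `N`, and `p ^ k` does not divide `p ^ ⌊m / 2⌋ χ(M) N`.  Then the kernel of every
homomorphism `α : Γ' → Diff(M)` contains an element different from `1` conjugate in `Γ` to an element
of the `p`-group, and `α` has finite image if every normal subgroup of `Γ'` of infinite index has no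
element of order `p`.
(2) This applies to the unitary group of `∑ x_i* a_i x_i` over any ring `O` with involution, if there
are `k` indices with `u_i ∈ O`, `u_i ≠ 1`, `u_i ^ p = 1`, `u_i* a_i u_i = a_i`; `α` has finite image
if every normal subgroup of `Γ'` is contained in `{1, -1}` or has finite index.
(3) It applies to the orthogonal (unitary) groups of the forms with `k` orthogonal summands
`c_i (x² + t x y + y²)` and arbitrary other binary summands over every ring `R ∋ t` contained in a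
domain with `t = ζ + ζ⁻¹`, `ζ ^ p = 1`, `ζ ≠ 1` (with values in the `2 × 2` matrices over `R`).
(4) The hypothesis holds if `p` does not divide `χ(M) N` and `m < 2 k`.
(5) Orthogonal groups of integral lattices with `l` orthogonal vectors of norm `± 2` and `k` orthogonal
planes `± A₂`: the same conclusion, if `2 ^ l` does not divide `2 ^ (m + 1) χ(M) N` or `3 ^ k` does not
divide `3 ^ ⌊m / 2⌋ χ(M) N`.
(6) For the lattices `E₈^a ⊕ U^b` this is so if `m` is even, `m < 8 a + 2 b - 2`, and `24` does not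
divide `χ(M) N`. -/
theorem result [CompactSpace M] [T2Space M] [ConnectedSpace M] :
    (∀ p : ℕ, p.Prime → p ≠ 2 → StatementG E M p ∧ StatementU E M p ∧ StatementB E M p) ∧
    (∀ (p k m N : ℕ) (χ : ℤ), p.Prime → ¬ (p : ℤ) ∣ χ * N → m < 2 * k → CondP p k m N χ) ∧
    StatementL E M ∧ StatementE E M := by
  refine ⟨fun p hp hp2 => ⟨general hp hp2, ?_, ?_⟩, fun p k m N χ hp hχ h => condP_of hp hχ h,
    ?_, ?_⟩
  · intro O _ _ n a u J hJ hu hs Γ' hfin α hα h
    exact unitary hp hp2 a u J hJ hu hs Γ' hfin α hα h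
  · intro R S _ _ _ _ f hf ζ ζ' hζ hζp hζ1 t ht hft n c b J Γ' hfin α hα h
    have hnt : Nontrivial R := by
      by_contra hcon
      rw [not_nontrivial_iff_subsingleton] at hcon
      have h1 : f 1 = f 0 := congrArg f (Subsingleton.elim _ _)
      rw [map_one, map_zero] at h1
      exact one_ne_zero h1
    refine unitary hp hp2 _ _ J (fun i hi => ?_) (fun i => ?_) (fun i => ?_) Γ' hfin α hα h
    · simp only [hi, if_true]
      exact comp_ne_one t
    · by_cases hi : i ∈ J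
      · simp only [hi, if_true]
        exact comp_pow f hf hp hp2 hζ hζp hζ1 hft
      · simp only [hi, if_false]
        exact one_pow p
    · by_cases hi : i ∈ J
      · simp only [hi, if_true]
        exact comp_star (c i) t ht
      · simp only [hi, if_false]
        rw [star_one, one_mul, mul_one]
  · intro V _ B hB ι κ _ _ r ε s t δ hr hst Γ' hfin α hα h
    exact lattice_main hB hr hst Γ' hfin hα h
  · intro a b Γ' hfin α hα hm hlt hχ
    have h1 := condL_of (a := a) (b := b) hm hlt hχ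
    refine lattice_main (V := EU0 a b) (isForm_EU0 a b) (roots_EU a b) (planes_EU a b) Γ' hfin hα ?_
    have c1 : Fintype.card ((Fin a × Fin 8) ⊕ (Fin b × Fin 2)) = a * 8 + b * 2 := by simp
    have c2 : Fintype.card ((Fin a × Fin 4) ⊕ (Fin (b / 2) × Fin 2)) = a * 4 + b / 2 * 2 := by
      simp
    rw [c1, c2]
    exact h1

end Pool.Agent.Results.MP_d483fb_an.OrthogonalLatticesH93
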